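import Mathlib
import Pool.Agent.TOKST.Defs

/-!
# Explicit totally odd subdivisions of `K₄`: list form and certificates
-/

set_option autoImplicit false
set_option linter.unusedSectionVars false

namespace Pool.Agent.TOKST

variable {V : Type}

/-- the six lists as a function -/
def six (P01 P02 P03 P12 P13 P23 : List V) (i j : Fin 4) : List V :=
  match i.val, j.val with
  | 0, 1 => P01
  | 1, 0 => P01.reverse
  | 0, 2 => P02
  | 2, 0 => P02.reverse
  | 0, 3 => P03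
  | 3, 0 => P03.reverse
  | 1, 2 => P12
  | 2, 1 => P12.reverse
  | 1, 3 => P13
  | 3, 1 => P13.reverse
  | 2, 3 => P23
  | 3, 2 => P23.reverse
  | _, _ => []

theorem isChain_rev {G : SimpleGraph V} {a b : V} {P : List V}
    (h : List.IsChain G.Adj (a :: (P ++ [b]))) : List.IsChain G.Adj (b :: (P.reverse ++ [a])) := by
  have h1 : (b :: (P.reverse ++ [a])) = (a :: (P ++ [b])).reverse := by simp
  rw [h1, List.isChain_reverse]
  exact h.imp fun _ _ h => h.symm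

theorem TK_of_six {G : SimpleGraph V} (a0 a1 a2 a3 : V) (P01 P02 P03 P12 P13 P23 : List V)
    (hnd : ([a0, a1, a2, a3] ++ (P01 ++ (P02 ++ (P03 ++ (P12 ++ (P13 ++ P23)))))).Nodup)
    (c01 : List.IsChain G.Adj (a0 :: (P01 ++ [a1]))) (c02 : List.IsChain G.Adj (a0 :: (P02 ++ [a2])))
    (c03 : List.IsChain G.Adj (a0 :: (P03 ++ [a3]))) (c12 : List.IsChain G.Adj (a1 :: (P12 ++ [a2])))
    (c13 : List.IsChain G.Adj (a1 :: (P13 ++ [a3]))) (c23 : List.IsChain G.Adj (a2 :: (P23 ++ [a3])))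
    (e01 : Even P01.length) (e02 : Even P02.length) (e03 : Even P03.length)
    (e12 : Even P12.length) (e13 : Even P13.length) (e23 : Even P23.length) : TK G := by
  rw [List.nodup_append] at hnd
  obtain ⟨hA, hP, hAP⟩ := hnd
  rw [List.nodup_append] at hP
  obtain ⟨n01, hP, d01⟩ := hP
  rw [List.nodup_append] at hP
  obtain ⟨n02, hP, d02⟩ := hP
  rw [List.nodup_append] at hP
  obtain ⟨n03, hP, d03⟩ := hP
  rw [List.nodup_append] at hP
  obtain ⟨n12, hP, d12⟩ := hP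
  rw [List.nodup_append] at hP
  obtain ⟨n13, n23, d13⟩ := hP
  simp only [List.mem_append, ne_eq] at d01 d02 d03 d12 d13 hAP
  simp only [List.nodup_cons, List.mem_cons, not_or, List.not_mem_nil, not_false_eq_true,
    List.nodup_nil, and_true] at hA
  obtain ⟨⟨m1, m2, m3⟩, ⟨m4, m5⟩, m6⟩ := hA
  have hev : ∀ P : List V, Even P.length → Even P.reverse.length := fun P h => by
    rwa [List.length_reverse]
  have hrn : ∀ P : List V, P.Nodup → P.reverse.Nodup := fun P h => List.nodup_reverse.2 h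
  have hrm : ∀ (P : List V) (x : V), x ∈ P.reverse → x ∈ P := fun P x h => List.mem_reverse.1 h
  -- the number of the list
  have hix : ∀ i j : Fin 4, i ≠ j → ∀ x ∈ six P01 P02 P03 P12 P13 P23 i j,
      (s(i, j) = s(0, 1) ∧ x ∈ P01) ∨ (s(i, j) = s(0, 2) ∧ x ∈ P02) ∨
      (s(i, j) = s(0, 3) ∧ x ∈ P03) ∨ (s(i, j) = s(1, 2) ∧ x ∈ P12) ∨
      (s(i, j) = s(1, 3) ∧ x ∈ P13) ∨ (s(i, j) = s(2, 3) ∧ x ∈ P23) := by
    intro i j hij x hx
    fin_cases i <;> fin_cases j <;>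
      first
      | exact absurd rfl hij
      | exact Or.inl ⟨rfl, hx⟩
      | exact Or.inl ⟨Sym2.eq_swap, hrm _ _ hx⟩
      | exact Or.inr (Or.inl ⟨rfl, hx⟩)
      | exact Or.inr (Or.inl ⟨Sym2.eq_swap, hrm _ _ hx⟩)
      | exact Or.inr (Or.inr (Or.inl ⟨rfl, hx⟩))
      | exact Or.inr (Or.inr (Or.inl ⟨Sym2.eq_swap, hrm _ _ hx⟩))
      | exact Or.inr (Or.inr (Or.inr (Or.inl ⟨rfl, hx⟩)))
      | exact Or.inr (Or.inr (Or.inr (Or.inl ⟨Sym2.eq_swap, hrm _ _ hx⟩)))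
      | exact Or.inr (Or.inr (Or.inr (Or.inr (Or.inl ⟨rfl, hx⟩))))
      | exact Or.inr (Or.inr (Or.inr (Or.inr (Or.inl ⟨Sym2.eq_swap, hrm _ _ hx⟩))))
      | exact Or.inr (Or.inr (Or.inr (Or.inr (Or.inr ⟨rfl, hx⟩))))
      | exact Or.inr (Or.inr (Or.inr (Or.inr (Or.inr ⟨Sym2.eq_swap, hrm _ _ hx⟩))))
  refine ⟨![a0, a1, a2, a3], six P01 P02 P03 P12 P13 P23, ?_, ?_, ?_, ?_, ?_, ?_, ?_⟩
  · intro i j hij
    fin_cases i <;> fin_cases j <;>
      first | rfl | exact absurd hij m1 | exact absurd hij m2 | exact absurd hij m3 | exact absurd hij m4 | exact absurd hij m5 | exact absurd hij m6 | exact absurd hij.symm m1 | exact absurd hij.symm m2 | exact absurd hij.symm m3 | exact absurd hij.symm m4 | exact absurd hij.symm m5 | exact absurd hij.symm m6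
  · intro i j
    fin_cases i <;> fin_cases j <;> first | rfl | exact (List.reverse_reverse _).symm
  · intro i j hij
    fin_cases i <;> fin_cases j <;>
      first | exact absurd rfl hij | (simp only [six]; first | exact c01 | exact c02 | exact c03 | exact c12 | exact c13 | exact c23 | exact isChain_rev c01 | exact isChain_rev c02 | exact isChain_rev c03 | exact isChain_rev c12 | exact isChain_rev c13 | exact isChain_rev c23)
  · intro i j hij
    fin_cases i <;> fin_cases j <;> first | exact absurd rfl hij | exact e01 | exact e02 | exact e03 | exact e12 | exact e13 | exact e23 | exact hev _ e01 | exact hev _ e02 | exact hev _ e03 | exact hev _ e12 | exact hev _ e13 | exact hev _ e23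
  · intro i j hij
    fin_cases i <;> fin_cases j <;> first | exact absurd rfl hij | exact n01 | exact n02 | exact n03 | exact n12 | exact n13 | exact n23 | exact hrn _ n01 | exact hrn _ n02 | exact hrn _ n03 | exact hrn _ n12 | exact hrn _ n13 | exact hrn _ n23
  · intro i j m hij hm
    have key : ∀ x, (x ∈ P01 ∨ x ∈ P02 ∨ x ∈ P03 ∨ x ∈ P12 ∨ x ∈ P13 ∨ x ∈ P23) →
        x ≠ a0 ∧ x ≠ a1 ∧ x ≠ a2 ∧ x ≠ a3 := by
      intro x hx
      refine ⟨?_, ?_, ?_, ?_⟩ <;>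
      · rintro rfl
        exact hAP x (by simp) x hx rfl
    have h1 : ∀ x ∈ six P01 P02 P03 P12 P13 P23 i j,
        (x ∈ P01 ∨ x ∈ P02 ∨ x ∈ P03 ∨ x ∈ P12 ∨ x ∈ P13 ∨ x ∈ P23) := by
      intro x hx
      rcases hix i j ‹_› x hx with ⟨-, h⟩ | ⟨-, h⟩ | ⟨-, h⟩ | ⟨-, h⟩ | ⟨-, h⟩ | ⟨-, h⟩
      · exact Or.inl h
      · exact Or.inr (Or.inl h)
      · exact Or.inr (Or.inr (Or.inl h))
      · exact Or.inr (Or.inr (Or.inr (Or.inl h)))
      · exact Or.inr (Or.inr (Or.inr (Or.inr (Or.inl h))))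
      · exact Or.inr (Or.inr (Or.inr (Or.inr (Or.inr h))))
    have h2 := key _ (h1 _ hm)
    fin_cases m
    · exact h2.1 rfl
    · exact h2.2.1 rfl
    · exact h2.2.2.1 rfl
    · exact h2.2.2.2 rfl
  · have dd : ∀ x,
        (x ∈ P01 → x ∉ P02 ∧ x ∉ P03 ∧ x ∉ P12 ∧ x ∉ P13 ∧ x ∉ P23) ∧
        (x ∈ P02 → x ∉ P03 ∧ x ∉ P12 ∧ x ∉ P13 ∧ x ∉ P23) ∧
        (x ∈ P03 → x ∉ P12 ∧ x ∉ P13 ∧ x ∉ P23) ∧
        (x ∈ P12 → x ∉ P13 ∧ x ∉ P23) ∧ (x ∈ P13 → x ∉ P23) := by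
      intro x
      refine ⟨fun h => ⟨?_, ?_, ?_, ?_, ?_⟩, fun h => ⟨?_, ?_, ?_, ?_⟩, fun h => ⟨?_, ?_, ?_⟩,
        fun h => ⟨?_, ?_⟩, fun h => ?_⟩ <;> intro h'
      · exact d01 x h x (Or.inl h') rfl
      · exact d01 x h x (Or.inr (Or.inl h')) rfl
      · exact d01 x h x (Or.inr (Or.inr (Or.inl h'))) rfl
      · exact d01 x h x (Or.inr (Or.inr (Or.inr (Or.inl h')))) rfl
      · exact d01 x h x (Or.inr (Or.inr (Or.inr (Or.inr h')))) rfl
      · exact d02 x h x (Or.inl h') rfl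
      · exact d02 x h x (Or.inr (Or.inl h')) rfl
      · exact d02 x h x (Or.inr (Or.inr (Or.inl h'))) rfl
      · exact d02 x h x (Or.inr (Or.inr (Or.inr h'))) rfl
      · exact d03 x h x (Or.inl h') rfl
      · exact d03 x h x (Or.inr (Or.inl h')) rfl
      · exact d03 x h x (Or.inr (Or.inr h')) rfl
      · exact d12 x h x (Or.inl h') rfl
      · exact d12 x h x (Or.inr h') rfl
      · exact d13 x h x h' rfl
    intro i j k l hij hkl hne x hx hx'
    have h1 := hix i j hij x hx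
    have h2 := hix k l hkl x hx'
    obtain ⟨q1, q2, q3, q4, q5⟩ := dd x
    rcases h1 with ⟨s1, h1⟩ | ⟨s1, h1⟩ | ⟨s1, h1⟩ | ⟨s1, h1⟩ | ⟨s1, h1⟩ | ⟨s1, h1⟩ <;>
    rcases h2 with ⟨s2, h2⟩ | ⟨s2, h2⟩ | ⟨s2, h2⟩ | ⟨s2, h2⟩ | ⟨s2, h2⟩ | ⟨s2, h2⟩
    · exact hne (s1.trans s2.symm)
    · exact (q1 h1).1 h2
    · exact (q1 h1).2.1 h2
    · exact (q1 h1).2.2.1 h2
    · exact (q1 h1).2.2.2.1 h2
    · exact (q1 h1).2.2.2.2 h2
    · exact (q1 h2).1 h1
    · exact hne (s1.trans s2.symm)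
    · exact (q2 h1).1 h2
    · exact (q2 h1).2.1 h2
    · exact (q2 h1).2.2.1 h2
    · exact (q2 h1).2.2.2 h2
    · exact (q1 h2).2.1 h1
    · exact (q2 h2).1 h1
    · exact hne (s1.trans s2.symm)
    · exact (q3 h1).1 h2
    · exact (q3 h1).2.1 h2
    · exact (q3 h1).2.2 h2
    · exact (q1 h2).2.2.1 h1
    · exact (q2 h2).2.1 h1
    · exact (q3 h2).1 h1
    · exact hne (s1.trans s2.symm)
    · exact (q4 h1).1 h2
    · exact (q4 h1).2 h2
    · exact (q1 h2).2.2.2.1 h1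
    · exact (q2 h2).2.2.1 h1
    · exact (q3 h2).2.1 h1
    · exact (q4 h2).1 h1
    · exact hne (s1.trans s2.symm)
    · exact q5 h1 h2
    · exact (q1 h2).2.2.2.2 h1
    · exact (q2 h2).2.2.2 h1
    · exact (q3 h2).2.2 h1
    · exact (q4 h2).2 h1
    · exact q5 h2 h1
    · exact hne (s1.trans s2.symm)

/-- the check of a certificate -/
def chk {n : ℕ} (E : List (Fin n × Fin n)) (a0 a1 a2 a3 : Fin n)
    (P01 P02 P03 P12 P13 P23 : List (Fin n)) : Bool :=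
  decide ([a0, a1, a2, a3] ++ (P01 ++ (P02 ++ (P03 ++ (P12 ++ (P13 ++ P23)))))).Nodup &&
  decide (List.IsChain (fun u v => (u, v) ∈ E ∨ (v, u) ∈ E) (a0 :: (P01 ++ [a1]))) &&
  decide (List.IsChain (fun u v => (u, v) ∈ E ∨ (v, u) ∈ E) (a0 :: (P02 ++ [a2]))) &&
  decide (List.IsChain (fun u v => (u, v) ∈ E ∨ (v, u) ∈ E) (a0 :: (P03 ++ [a3]))) &&
  decide (List.IsChain (fun u v => (u, v) ∈ E ∨ (v, u) ∈ E) (a1 :: (P12 ++ [a2]))) &&
  decide (List.IsChain (fun u v => (u, v) ∈ E ∨ (v, u) ∈ E) (a1 :: (P13 ++ [a3]))) &&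
  decide (List.IsChain (fun u v => (u, v) ∈ E ∨ (v, u) ∈ E) (a2 :: (P23 ++ [a3]))) &&
  (P01.length % 2 == 0) && (P02.length % 2 == 0) && (P03.length % 2 == 0) &&
  (P12.length % 2 == 0) && (P13.length % 2 == 0) && (P23.length % 2 == 0)

theorem TK_of_chk {n : ℕ} {G : SimpleGraph V} (φ : Fin n → V) (hφ : Function.Injective φ)
    (E : List (Fin n × Fin n)) (hE : ∀ e ∈ E, G.Adj (φ e.1) (φ e.2)) (a0 a1 a2 a3 : Fin n)
    (P01 P02 P03 P12 P13 P23 : List (Fin n))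
    (h : chk E a0 a1 a2 a3 P01 P02 P03 P12 P13 P23 = true) : TK G := by
  unfold chk at h
  simp only [Bool.and_eq_true, decide_eq_true_eq, beq_iff_eq] at h
  obtain ⟨⟨⟨⟨⟨⟨⟨⟨⟨⟨⟨⟨hnd, c1⟩, c2⟩, c3⟩, c4⟩, c5⟩, c6⟩, e1⟩, e2⟩, e3⟩, e4⟩, e5⟩, e6⟩ := h
  have hch : ∀ (u v : Fin n) (P : List (Fin n)),
      List.IsChain (fun u v => (u, v) ∈ E ∨ (v, u) ∈ E) (u :: (P ++ [v])) →
      List.IsChain G.Adj (φ u :: (P.map φ ++ [φ v])) := by
    intro u v P hP
    have e : (φ u :: (P.map φ ++ [φ v])) = (u :: (P ++ [v])).map φ := by simp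
    rw [e, List.isChain_map]
    refine hP.imp fun x y hxy => ?_
    rcases hxy with hxy | hxy
    · exact hE _ hxy
    · exact (hE _ hxy).symm
  have hev : ∀ P : List (Fin n), P.length % 2 = 0 → Even (P.map φ).length := by
    intro P hP
    rw [List.length_map, Nat.even_iff]
    exact hP
  refine TK_of_six (φ a0) (φ a1) (φ a2) (φ a3) (P01.map φ) (P02.map φ) (P03.map φ) (P12.map φ)
    (P13.map φ) (P23.map φ) ?_ (hch _ _ _ c1) (hch _ _ _ c2) (hch _ _ _ c3) (hch _ _ _ c4)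
    (hch _ _ _ c5) (hch _ _ _ c6) (hev _ e1) (hev _ e2) (hev _ e3) (hev _ e4) (hev _ e5)
    (hev _ e6)
  have e := List.Nodup.map hφ hnd
  simpa using e

end Pool.Agent.TOKST
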