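import Mathlib
import Pool.Agent.TOKST.Main
import Pool.Agent.TOKST3.Cert

/-!
# Graphs with arbitrary links, degrees of the blacks
-/

set_option autoImplicit false
set_option linter.unusedSectionVars false

namespace Pool.Agent.TOKST

section Graph

variable {V : Type} [DecidableEq V]

/-- The graph with the whites `Wh` (`w` is adjacent to the elements of `N w`) and the links `R`. -/
def LG (Wh : Finset V) (N : V → Finset V) (R : V → V → Prop) : SimpleGraph V :=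
  SimpleGraph.fromRel fun u v => (u ∈ Wh ∧ v ∈ N u) ∨ R u v

/-- the links after the identification of `q` with `p` -/
def fR (p q : V) (R : V → V → Prop) : V → V → Prop :=
  fun x y => ∃ u v, R u v ∧ rr p q u = x ∧ rr p q v = y

/-- three links `l 0 l 1`, `l 2 l 3`, `l 4 l 5` -/
def R3 (l : Fin 6 → V) : V → V → Prop :=
  fun u v => (u = l 0 ∧ v = l 1) ∨ (u = l 2 ∧ v = l 3) ∨ (u = l 4 ∧ v = l 5)

theorem LG_adj {Wh : Finset V} {N : V → Finset V} {R : V → V → Prop} {u v : V} :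
    (LG Wh N R).Adj u v ↔ u ≠ v ∧
      (((u ∈ Wh ∧ v ∈ N u) ∨ R u v) ∨ ((v ∈ Wh ∧ u ∈ N v) ∨ R v u)) := by
  unfold LG
  rw [SimpleGraph.fromRel_adj]

theorem R3_fold (p q : V) (l : Fin 6 → V) : R3 (rr p q ∘ l) = fR p q (R3 l) := by
  funext x y
  apply propext
  constructor
  · rintro (⟨rfl, rfl⟩ | ⟨rfl, rfl⟩ | ⟨rfl, rfl⟩)
    · exact ⟨l 0, l 1, Or.inl ⟨rfl, rfl⟩, rfl, rfl⟩
    · exact ⟨l 2, l 3, Or.inr (Or.inl ⟨rfl, rfl⟩), rfl, rfl⟩
    · exact ⟨l 4, l 5, Or.inr (Or.inr ⟨rfl, rfl⟩), rfl, rfl⟩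
  · rintro ⟨u, v, (⟨rfl, rfl⟩ | ⟨rfl, rfl⟩ | ⟨rfl, rfl⟩), rfl, rfl⟩
    · exact Or.inl ⟨rfl, rfl⟩
    · exact Or.inr (Or.inl ⟨rfl, rfl⟩)
    · exact Or.inr (Or.inr ⟨rfl, rfl⟩)

end Graph

section Deg

variable {ι α : Type} [DecidableEq ι] [DecidableEq α]

/-- the degree of the black `c` -/
def dg (W : Finset ι) (N : ι → Finset α) (c : α) : ℕ := (W.filter fun w => c ∈ N w).card

/-- double counting -/
theorem sum_dg (W : Finset ι) (N : ι → Finset α) :
    ∑ c ∈ NN N W, dg W N c = ∑ w ∈ W, (N w).card := by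
  have h1 : ∀ c ∈ NN N W, dg W N c = ∑ w ∈ W, if c ∈ N w then 1 else 0 := by
    intro c _
    unfold dg
    rw [Finset.card_filter]
  rw [Finset.sum_congr rfl h1, Finset.sum_comm]
  refine Finset.sum_congr rfl fun w hw => ?_
  rw [← Finset.card_filter]
  congr 1
  ext c
  rw [Finset.mem_filter]
  exact ⟨fun h => h.2, fun h => ⟨N_subset_NN hw h, h⟩⟩

theorem sum_dg_rigid {W : Finset ι} {N : ι → Finset α} (h : Rigid W N) :
    ∑ c ∈ NN N W, dg W N c = 4 * W.card := by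
  rw [sum_dg, Finset.sum_congr rfl h.four, Finset.sum_const, smul_eq_mul, mul_comm]

/-- blacks of degree at least three are rare -/
theorem deg_count {W : Finset ι} {N : ι → Finset α} (h : Rigid W N)
    (h2 : ∀ c ∈ NN N W, 2 ≤ dg W N c) (S : Finset α) (hS : S ⊆ NN N W)
    (h3 : ∀ c ∈ S, 3 ≤ dg W N c) : S.card + 6 ≤ 2 * W.card := by
  have h4 := sum_dg_rigid h
  have h5 : ∑ c ∈ NN N W, (2 + if c ∈ S then 1 else 0) ≤ ∑ c ∈ NN N W, dg W N c := by
    refine Finset.sum_le_sum fun c hc => ?_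
    split_ifs with hcS
    · exact h3 c hcS
    · exact h2 c hc
  rw [Finset.sum_add_distrib, Finset.sum_const, smul_eq_mul, ← Finset.card_filter,
    Finset.filter_mem_eq_inter, Finset.inter_eq_right.2 hS, h.tot] at h5
  omega

end Deg

end Pool.Agent.TOKST
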