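import Mathlib
import Pool.Agent.TOKST.Six
import Pool.Agent.TOKST3.Defs3

/-!
# Module ADM6: with at least five whites some admissible pair is not inside a given set of six blacks
-/

set_option autoImplicit false
set_option linter.unusedSectionVars false

namespace Pool.Agent.TOKST

variable {ι α : Type} [DecidableEq ι] [DecidableEq α]

/-- the number of admissible pairs not inside `X` grows by at most one in a fold inside `X` -/
theorem fold_type {W : Finset ι} {N : ι → Finset α} (h : Rigid W N) {w : ι} {p q : α}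
    (ha : Adm W N w {p, q}) {X : Finset α} (hp : p ∈ X) :
    ((PA (W.erase w) (fN p q N)).filter fun e => ¬ e ⊆ X.image (rr p q)).card ≤
      ((PA W N).filter fun e => ¬ e ⊆ X).card + 1 := by
  classical
  have hpq := ha.ne
  have hch : ∀ c : α, ∃ t : α, (t = p ∨ t = q) ∧
      ({p, c} ∈ PA (W.erase w) (fN p q N) → {t, c} ∈ PA W N) := by
    intro c
    by_cases h1 : {p, c} ∈ PA (W.erase w) (fN p q N)
    · rcases fold_star h ha h1 with h2 | h2
      · exact ⟨p, Or.inl rfl, fun _ => h2⟩
      · exact ⟨q, Or.inr rfl, fun _ => h2⟩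
    · exact ⟨p, Or.inl rfl, fun h2 => absurd h2 h1⟩
  choose t ht1 ht2 using hch
  have hq : ∀ e ∈ PA (W.erase w) (fN p q N), q ∉ e := by
    intro e he hqe
    obtain ⟨w', he'⟩ := mem_PA.1 he
    obtain ⟨b, _, hb⟩ := Finset.mem_image.1 (he'.2.2.1 hqe)
    exact rr_ne hpq b hb
  have hcard : ∀ e ∈ PA (W.erase w) (fN p q N), e.card = 2 := by
    intro e he
    obtain ⟨w', he'⟩ := mem_PA.1 he
    exact he'.2.1
  have hform : ∀ e ∈ PA (W.erase w) (fN p q N), p ∈ e → ∃ c, c ≠ p ∧ c ≠ q ∧ e = {p, c} := by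
    intro e he hpe
    obtain ⟨x, y, hxy, rfl⟩ := Finset.card_eq_two.1 (hcard e he)
    have hqe := hq _ he
    rcases Finset.mem_insert.1 hpe with h1 | h1
    · subst h1
      refine ⟨y, hxy.symm, ?_, rfl⟩
      rintro rfl
      exact hqe (Finset.mem_insert_of_mem (Finset.mem_singleton_self _))
    · rw [Finset.mem_singleton] at h1
      subst h1
      refine ⟨x, hxy, ?_, Finset.pair_comm _ _⟩
      rintro rfl
      exact hqe (Finset.mem_insert_self _ _)
  have hcN : (N w \ {p, q}).card = 2 := by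
    have h1 := Finset.card_sdiff_add_card_eq_card ha.2.2.1
    rw [ha.2.1, h.four w ha.1] at h1
    omega
  have hrs : ∀ e ∈ PA (W.erase w) (fN p q N), p ∉ e → e ⊆ N w → e = N w \ {p, q} := by
    intro e he hpe hs
    apply Finset.eq_of_subset_of_card_le
    · intro a hae
      refine Finset.mem_sdiff.2 ⟨hs hae, fun h1 => ?_⟩
      rcases Finset.mem_insert.1 h1 with h2 | h2
      · exact hpe (h2 ▸ hae)
      · exact hq e he (Finset.mem_singleton.1 h2 ▸ hae)
    · rw [hcN, hcard e he]
  let φ : Finset α → Finset α := fun e =>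
    if p ∈ e then (e.erase p).biUnion (fun c => {t c, c}) else e
  have hφ1 : ∀ c, c ≠ p → φ {p, c} = {t c, c} := by
    intro c hc
    have h1 : ({p, c} : Finset α).erase p = {c} := by
      rw [Finset.erase_insert (by rw [Finset.mem_singleton]; exact hc.symm)]
    simp only [φ]
    rw [if_pos (Finset.mem_insert_self _ _), h1, Finset.singleton_biUnion]
  have hφ3 : ∀ e : Finset α, p ∉ e → φ e = e := by
    intro e h1
    simp only [φ]
    rw [if_neg h1]
  have hcc : ∀ c c', c ≠ p → c ≠ q → c' ≠ p → c' ≠ q →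
      ({t c, c} : Finset α) = {t c', c'} → c = c' := by
    intro c c' h1 h2 h3 h4 h5
    have h6 : c ∈ ({t c', c'} : Finset α) :=
      h5 ▸ Finset.mem_insert_of_mem (Finset.mem_singleton_self _)
    rcases Finset.mem_insert.1 h6 with h7 | h7
    · rcases ht1 c' with h8 | h8
      · exact absurd (h7.trans h8) h1
      · exact absurd (h7.trans h8) h2
    · exact Finset.mem_singleton.1 h7
  set S' := (PA (W.erase w) (fN p q N)).filter fun e => ¬ e ⊆ X.image (rr p q) with hS'
  have hsub : S' ⊆ insert (N w \ {p, q}) (S'.filter fun e => p ∈ e ∨ ¬ e ⊆ N w) := by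
    intro e he
    by_cases h1 : p ∈ e ∨ ¬ e ⊆ N w
    · exact Finset.mem_insert_of_mem (Finset.mem_filter.2 ⟨he, h1⟩)
    · push Not at h1
      rw [hrs e (Finset.mem_filter.1 he).1 h1.1 h1.2]
      exact Finset.mem_insert_self _ _
  refine (Finset.card_le_card hsub).trans ((Finset.card_insert_le _ _).trans ?_)
  refine Nat.add_le_add_right ?_ 1
  refine Finset.card_le_card_of_injOn φ ?_ ?_
  · intro e he
    obtain ⟨he1, he2⟩ := Finset.mem_filter.1 (Finset.mem_coe.1 he)
    obtain ⟨he3, he4⟩ := Finset.mem_filter.1 he1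
    refine Finset.mem_coe.2 (Finset.mem_filter.2 ?_)
    by_cases hpe : p ∈ e
    · obtain ⟨c, hc1, hc2, rfl⟩ := hform e he3 hpe
      rw [hφ1 c hc1]
      refine ⟨ht2 c he3, fun h5 => he4 ?_⟩
      have h6 : c ∈ X := (pair_subset.1 h5).2
      exact pair_subset.2 ⟨mem_image_rr_of_ne hp hpq, mem_image_rr_of_ne h6 hc2⟩
    · rw [hφ3 e hpe]
      have h5 : ¬ e ⊆ N w := he2.resolve_left hpe
      refine ⟨fold_other h ha he3 hpe h5, fun h6 => he4 fun a ha' => ?_⟩
      exact mem_image_rr_of_ne (h6 ha') (fun h7 => hq e he3 (h7 ▸ ha'))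
  · intro e he e' he' hee
    obtain ⟨he1, -⟩ := Finset.mem_filter.1 (Finset.mem_coe.1 he)
    obtain ⟨he1', -⟩ := Finset.mem_filter.1 (Finset.mem_coe.1 he')
    obtain ⟨he3, -⟩ := Finset.mem_filter.1 he1
    obtain ⟨he3', -⟩ := Finset.mem_filter.1 he1'
    by_cases hpe : p ∈ e
    · obtain ⟨c, hc1, hc2, rfl⟩ := hform e he3 hpe
      rw [hφ1 c hc1] at hee
      by_cases hpe' : p ∈ e'
      · obtain ⟨c', hc1', hc2', rfl⟩ := hform e' he3' hpe'
        rw [hφ1 c' hc1'] at hee
        rw [hcc c c' hc1 hc2 hc1' hc2' hee]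
      · rw [hφ3 e' hpe'] at hee
        have h6 : t c ∈ e' := hee ▸ Finset.mem_insert_self _ _
        rcases ht1 c with h8 | h8
        · exact absurd (h8 ▸ h6) hpe'
        · exact absurd (h8 ▸ h6) (hq e' he3')
    · rw [hφ3 e hpe] at hee
      by_cases hpe' : p ∈ e'
      · obtain ⟨c', hc1', hc2', rfl⟩ := hform e' he3' hpe'
        rw [hφ1 c' hc1'] at hee
        have h6 : t c' ∈ e := hee ▸ Finset.mem_insert_self _ _
        rcases ht1 c' with h8 | h8
        · exact absurd (h8 ▸ h6) hpe
        · exact absurd (h8 ▸ h6) (hq e he3)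
      · rwa [hφ3 e' hpe'] at hee

theorem not_type (k : ℕ) : ∀ (W : Finset ι) (N : ι → Finset α) (X : Finset α) (j : ℕ),
    Rigid W N → 2 ≤ k → k ≤ W.card + 1 → k + j ≤ 6 → X.card ≤ k →
    ((PA W N).filter fun e => ¬ e ⊆ X).card ≤ j → False := by
  classical
  induction k with
  | zero =>
    intro W N X j _ h2
    omega
  | succ k ih =>
    intro W N X j h h2 hW hj hX hP
    have hne : W.Nonempty := by
      rw [← Finset.card_pos]
      omega
    have h6 := six_le h hne
    have hsplit := Finset.card_filter_add_card_filter_not (s := PA W N) (fun e => e ⊆ X)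
    have hcard : ∀ e ∈ PA W N, e.card = 2 := by
      intro e he
      obtain ⟨w', he'⟩ := mem_PA.1 he
      exact he'.2.1
    have hin : (PA W N).filter (fun e => e ⊆ X) ⊆ X.powersetCard 2 := by
      intro e he
      obtain ⟨he1, he2⟩ := Finset.mem_filter.1 he
      exact Finset.mem_powersetCard.2 ⟨he2, hcard e he1⟩
    by_cases hk : k + 1 = 2
    · have hc := Finset.card_le_card hin
      rw [Finset.card_powersetCard] at hc
      have h7 : X.card.choose 2 ≤ (2 : ℕ).choose 2 := Nat.choose_le_choose 2 (by omega)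
      have h8 : (2 : ℕ).choose 2 = 1 := rfl
      omega
    · obtain ⟨e, he⟩ : ((PA W N).filter (fun e => e ⊆ X)).Nonempty := by
        rw [← Finset.card_pos]
        omega
      obtain ⟨he1, he2⟩ := Finset.mem_filter.1 he
      obtain ⟨w, ha⟩ := mem_PA.1 he1
      obtain ⟨p, q, hpq, rfl⟩ := Finset.card_eq_two.1 ha.2.1
      obtain ⟨hpX, hqX⟩ := pair_subset.1 he2
      have hr := fold_rigid h ha (by omega)
      have hcX := card_image_rr hpq X
      rw [if_pos ⟨hpX, hqX⟩] at hcX
      refine ih (W.erase w) (fN p q N) (X.image (rr p q)) (j + 1) hr (by omega) ?_ (by omega)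
        (by omega) ((fold_type h ha hpX).trans (by omega))
      rw [Finset.card_erase_of_mem ha.1]
      omega

theorem exists_adm_not_subset6 {W : Finset ι} {N : ι → Finset α} (h : Rigid W N)
    (hW : 5 ≤ W.card) (X : Finset α) (hX : X.card ≤ 6) :
    ∃ w p q, Adm W N w {p, q} ∧ ¬ ({p, q} : Finset α) ⊆ X := by
  classical
  by_contra hcon
  push Not at hcon
  refine not_type 6 W N X 0 h (by omega) (by omega) (by omega) hX ?_
  rw [Nat.le_zero, Finset.card_eq_zero, Finset.filter_eq_empty_iff]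
  intro e he hno
  obtain ⟨w, ha⟩ := mem_PA.1 he
  obtain ⟨p, q, hpq, rfl⟩ := Finset.card_eq_two.1 ha.2.1
  exact hno (hcon w p q ha)

end Pool.Agent.TOKST
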