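import Mathlib
import Pool.Agent.TOKST3.Cert

/-!
# The concrete structures with three and four whites
-/

set_option autoImplicit false
set_option linter.unusedSectionVars false

namespace Pool.Agent.TOKST

/-- the fifteen perfect matchings of six points -/
theorem matchings (m : Fin 6 → Fin 6) (h1 : ∀ i, m (m i) = i) (h2 : ∀ i, m i ≠ i) :
    (m 0 = 1 ∧ m 2 = 3 ∧ m 4 = 5) ∨
    (m 0 = 1 ∧ m 2 = 4 ∧ m 3 = 5) ∨
    (m 0 = 1 ∧ m 2 = 5 ∧ m 3 = 4) ∨
    (m 0 = 2 ∧ m 1 = 3 ∧ m 4 = 5) ∨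
    (m 0 = 2 ∧ m 1 = 4 ∧ m 3 = 5) ∨
    (m 0 = 2 ∧ m 1 = 5 ∧ m 3 = 4) ∨
    (m 0 = 3 ∧ m 1 = 2 ∧ m 4 = 5) ∨
    (m 0 = 3 ∧ m 1 = 4 ∧ m 2 = 5) ∨
    (m 0 = 3 ∧ m 1 = 5 ∧ m 2 = 4) ∨
    (m 0 = 4 ∧ m 1 = 2 ∧ m 3 = 5) ∨
    (m 0 = 4 ∧ m 1 = 3 ∧ m 2 = 5) ∨
    (m 0 = 4 ∧ m 1 = 5 ∧ m 2 = 3) ∨
    (m 0 = 5 ∧ m 1 = 2 ∧ m 3 = 4) ∨
    (m 0 = 5 ∧ m 1 = 3 ∧ m 2 = 4) ∨
    (m 0 = 5 ∧ m 1 = 4 ∧ m 2 = 3) := by
  have hs : ∀ i j, m i = j → m j = i := by
    rintro i j rfl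
    exact h1 i
  have hi : ∀ i j k, m i = k → m j = k → i = j := by
    intro i j k hik hjk
    rw [← hs i k hik, ← hs j k hjk]
  have c0 : m 0 = 1 ∨ m 0 = 2 ∨ m 0 = 3 ∨ m 0 = 4 ∨ m 0 = 5 := by
    have h := h2 0
    generalize m 0 = x at h ⊢
    revert x
    decide
  rcases c0 with h0 | h0 | h0 | h0 | h0
  · have hb := hs _ _ h0
    have c1 : m 2 = 3 ∨ m 2 = 4 ∨ m 2 = 5 := by
      have n0 : m 2 ≠ 0 := fun h => absurd (hi _ _ _ h hb) (by decide)
      have n1 : m 2 ≠ 1 := fun h => absurd (hi _ _ _ h h0) (by decide)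
      have n2 := h2 2
      generalize m 2 = x at n0 n1 n2 ⊢
      revert x
      decide
    rcases c1 with h3 | h3 | h3
    · have hb3 := hs _ _ h3
      have e3 : m 4 = 5 := by
        have n0 : m 4 ≠ 0 := fun h => absurd (hi _ _ _ h hb) (by decide)
        have n1 : m 4 ≠ 1 := fun h => absurd (hi _ _ _ h h0) (by decide)
        have n2 := h2 4
        have n3 : m 4 ≠ 2 := fun h => absurd (hi _ _ _ h hb3) (by decide)
        have n4 : m 4 ≠ 3 := fun h => absurd (hi _ _ _ h h3) (by decide)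
        generalize m 4 = x at n0 n1 n2 n3 n4 ⊢
        revert x
        decide
      exact Or.inl ⟨h0, h3, e3⟩
    · have hb3 := hs _ _ h3
      have e3 : m 3 = 5 := by
        have n0 : m 3 ≠ 0 := fun h => absurd (hi _ _ _ h hb) (by decide)
        have n1 : m 3 ≠ 1 := fun h => absurd (hi _ _ _ h h0) (by decide)
        have n2 := h2 3
        have n3 : m 3 ≠ 2 := fun h => absurd (hi _ _ _ h hb3) (by decide)
        have n4 : m 3 ≠ 4 := fun h => absurd (hi _ _ _ h h3) (by decide)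
        generalize m 3 = x at n0 n1 n2 n3 n4 ⊢
        revert x
        decide
      exact Or.inr (Or.inl ⟨h0, h3, e3⟩)
    · have hb3 := hs _ _ h3
      have e3 : m 3 = 4 := by
        have n0 : m 3 ≠ 0 := fun h => absurd (hi _ _ _ h hb) (by decide)
        have n1 : m 3 ≠ 1 := fun h => absurd (hi _ _ _ h h0) (by decide)
        have n2 := h2 3
        have n3 : m 3 ≠ 2 := fun h => absurd (hi _ _ _ h hb3) (by decide)
        have n4 : m 3 ≠ 5 := fun h => absurd (hi _ _ _ h h3) (by decide)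
        generalize m 3 = x at n0 n1 n2 n3 n4 ⊢
        revert x
        decide
      exact Or.inr (Or.inr (Or.inl ⟨h0, h3, e3⟩))
  · have hb := hs _ _ h0
    have c1 : m 1 = 3 ∨ m 1 = 4 ∨ m 1 = 5 := by
      have n0 : m 1 ≠ 0 := fun h => absurd (hi _ _ _ h hb) (by decide)
      have n1 : m 1 ≠ 2 := fun h => absurd (hi _ _ _ h h0) (by decide)
      have n2 := h2 1
      generalize m 1 = x at n0 n1 n2 ⊢
      revert x
      decide
    rcases c1 with h3 | h3 | h3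
    · have hb3 := hs _ _ h3
      have e3 : m 4 = 5 := by
        have n0 : m 4 ≠ 0 := fun h => absurd (hi _ _ _ h hb) (by decide)
        have n1 : m 4 ≠ 2 := fun h => absurd (hi _ _ _ h h0) (by decide)
        have n2 := h2 4
        have n3 : m 4 ≠ 1 := fun h => absurd (hi _ _ _ h hb3) (by decide)
        have n4 : m 4 ≠ 3 := fun h => absurd (hi _ _ _ h h3) (by decide)
        generalize m 4 = x at n0 n1 n2 n3 n4 ⊢
        revert x
        decide
      exact Or.inr (Or.inr (Or.inr (Or.inl ⟨h0, h3, e3⟩)))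
    · have hb3 := hs _ _ h3
      have e3 : m 3 = 5 := by
        have n0 : m 3 ≠ 0 := fun h => absurd (hi _ _ _ h hb) (by decide)
        have n1 : m 3 ≠ 2 := fun h => absurd (hi _ _ _ h h0) (by decide)
        have n2 := h2 3
        have n3 : m 3 ≠ 1 := fun h => absurd (hi _ _ _ h hb3) (by decide)
        have n4 : m 3 ≠ 4 := fun h => absurd (hi _ _ _ h h3) (by decide)
        generalize m 3 = x at n0 n1 n2 n3 n4 ⊢
        revert x
        decide
      exact Or.inr (Or.inr (Or.inr (Or.inr (Or.inl ⟨h0, h3, e3⟩))))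
    · have hb3 := hs _ _ h3
      have e3 : m 3 = 4 := by
        have n0 : m 3 ≠ 0 := fun h => absurd (hi _ _ _ h hb) (by decide)
        have n1 : m 3 ≠ 2 := fun h => absurd (hi _ _ _ h h0) (by decide)
        have n2 := h2 3
        have n3 : m 3 ≠ 1 := fun h => absurd (hi _ _ _ h hb3) (by decide)
        have n4 : m 3 ≠ 5 := fun h => absurd (hi _ _ _ h h3) (by decide)
        generalize m 3 = x at n0 n1 n2 n3 n4 ⊢
        revert x
        decide
      exact Or.inr (Or.inr (Or.inr (Or.inr (Or.inr (Or.inl ⟨h0, h3, e3⟩)))))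
  · have hb := hs _ _ h0
    have c1 : m 1 = 2 ∨ m 1 = 4 ∨ m 1 = 5 := by
      have n0 : m 1 ≠ 0 := fun h => absurd (hi _ _ _ h hb) (by decide)
      have n1 : m 1 ≠ 3 := fun h => absurd (hi _ _ _ h h0) (by decide)
      have n2 := h2 1
      generalize m 1 = x at n0 n1 n2 ⊢
      revert x
      decide
    rcases c1 with h3 | h3 | h3
    · have hb3 := hs _ _ h3
      have e3 : m 4 = 5 := by
        have n0 : m 4 ≠ 0 := fun h => absurd (hi _ _ _ h hb) (by decide)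
        have n1 : m 4 ≠ 3 := fun h => absurd (hi _ _ _ h h0) (by decide)
        have n2 := h2 4
        have n3 : m 4 ≠ 1 := fun h => absurd (hi _ _ _ h hb3) (by decide)
        have n4 : m 4 ≠ 2 := fun h => absurd (hi _ _ _ h h3) (by decide)
        generalize m 4 = x at n0 n1 n2 n3 n4 ⊢
        revert x
        decide
      exact Or.inr (Or.inr (Or.inr (Or.inr (Or.inr (Or.inr (Or.inl ⟨h0, h3, e3⟩))))))
    · have hb3 := hs _ _ h3
      have e3 : m 2 = 5 := by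
        have n0 : m 2 ≠ 0 := fun h => absurd (hi _ _ _ h hb) (by decide)
        have n1 : m 2 ≠ 3 := fun h => absurd (hi _ _ _ h h0) (by decide)
        have n2 := h2 2
        have n3 : m 2 ≠ 1 := fun h => absurd (hi _ _ _ h hb3) (by decide)
        have n4 : m 2 ≠ 4 := fun h => absurd (hi _ _ _ h h3) (by decide)
        generalize m 2 = x at n0 n1 n2 n3 n4 ⊢
        revert x
        decide
      exact Or.inr (Or.inr (Or.inr (Or.inr (Or.inr (Or.inr (Or.inr (Or.inl ⟨h0, h3, e3⟩)))))))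
    · have hb3 := hs _ _ h3
      have e3 : m 2 = 4 := by
        have n0 : m 2 ≠ 0 := fun h => absurd (hi _ _ _ h hb) (by decide)
        have n1 : m 2 ≠ 3 := fun h => absurd (hi _ _ _ h h0) (by decide)
        have n2 := h2 2
        have n3 : m 2 ≠ 1 := fun h => absurd (hi _ _ _ h hb3) (by decide)
        have n4 : m 2 ≠ 5 := fun h => absurd (hi _ _ _ h h3) (by decide)
        generalize m 2 = x at n0 n1 n2 n3 n4 ⊢
        revert x
        decide
      exact Or.inr (Or.inr (Or.inr (Or.inr (Or.inr (Or.inr (Or.inr (Or.inr (Or.inl ⟨h0, h3, e3⟩))))))))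
  · have hb := hs _ _ h0
    have c1 : m 1 = 2 ∨ m 1 = 3 ∨ m 1 = 5 := by
      have n0 : m 1 ≠ 0 := fun h => absurd (hi _ _ _ h hb) (by decide)
      have n1 : m 1 ≠ 4 := fun h => absurd (hi _ _ _ h h0) (by decide)
      have n2 := h2 1
      generalize m 1 = x at n0 n1 n2 ⊢
      revert x
      decide
    rcases c1 with h3 | h3 | h3
    · have hb3 := hs _ _ h3
      have e3 : m 3 = 5 := by
        have n0 : m 3 ≠ 0 := fun h => absurd (hi _ _ _ h hb) (by decide)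
        have n1 : m 3 ≠ 4 := fun h => absurd (hi _ _ _ h h0) (by decide)
        have n2 := h2 3
        have n3 : m 3 ≠ 1 := fun h => absurd (hi _ _ _ h hb3) (by decide)
        have n4 : m 3 ≠ 2 := fun h => absurd (hi _ _ _ h h3) (by decide)
        generalize m 3 = x at n0 n1 n2 n3 n4 ⊢
        revert x
        decide
      exact Or.inr (Or.inr (Or.inr (Or.inr (Or.inr (Or.inr (Or.inr (Or.inr (Or.inr (Or.inl ⟨h0, h3, e3⟩)))))))))
    · have hb3 := hs _ _ h3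
      have e3 : m 2 = 5 := by
        have n0 : m 2 ≠ 0 := fun h => absurd (hi _ _ _ h hb) (by decide)
        have n1 : m 2 ≠ 4 := fun h => absurd (hi _ _ _ h h0) (by decide)
        have n2 := h2 2
        have n3 : m 2 ≠ 1 := fun h => absurd (hi _ _ _ h hb3) (by decide)
        have n4 : m 2 ≠ 3 := fun h => absurd (hi _ _ _ h h3) (by decide)
        generalize m 2 = x at n0 n1 n2 n3 n4 ⊢
        revert x
        decide
      exact Or.inr (Or.inr (Or.inr (Or.inr (Or.inr (Or.inr (Or.inr (Or.inr (Or.inr (Or.inr (Or.inl ⟨h0, h3, e3⟩))))))))))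
    · have hb3 := hs _ _ h3
      have e3 : m 2 = 3 := by
        have n0 : m 2 ≠ 0 := fun h => absurd (hi _ _ _ h hb) (by decide)
        have n1 : m 2 ≠ 4 := fun h => absurd (hi _ _ _ h h0) (by decide)
        have n2 := h2 2
        have n3 : m 2 ≠ 1 := fun h => absurd (hi _ _ _ h hb3) (by decide)
        have n4 : m 2 ≠ 5 := fun h => absurd (hi _ _ _ h h3) (by decide)
        generalize m 2 = x at n0 n1 n2 n3 n4 ⊢
        revert x
        decide
      exact Or.inr (Or.inr (Or.inr (Or.inr (Or.inr (Or.inr (Or.inr (Or.inr (Or.inr (Or.inr (Or.inr (Or.inl ⟨h0, h3, e3⟩)))))))))))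
  · have hb := hs _ _ h0
    have c1 : m 1 = 2 ∨ m 1 = 3 ∨ m 1 = 4 := by
      have n0 : m 1 ≠ 0 := fun h => absurd (hi _ _ _ h hb) (by decide)
      have n1 : m 1 ≠ 5 := fun h => absurd (hi _ _ _ h h0) (by decide)
      have n2 := h2 1
      generalize m 1 = x at n0 n1 n2 ⊢
      revert x
      decide
    rcases c1 with h3 | h3 | h3
    · have hb3 := hs _ _ h3
      have e3 : m 3 = 4 := by
        have n0 : m 3 ≠ 0 := fun h => absurd (hi _ _ _ h hb) (by decide)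
        have n1 : m 3 ≠ 5 := fun h => absurd (hi _ _ _ h h0) (by decide)
        have n2 := h2 3
        have n3 : m 3 ≠ 1 := fun h => absurd (hi _ _ _ h hb3) (by decide)
        have n4 : m 3 ≠ 2 := fun h => absurd (hi _ _ _ h h3) (by decide)
        generalize m 3 = x at n0 n1 n2 n3 n4 ⊢
        revert x
        decide
      exact Or.inr (Or.inr (Or.inr (Or.inr (Or.inr (Or.inr (Or.inr (Or.inr (Or.inr (Or.inr (Or.inr (Or.inr (Or.inl ⟨h0, h3, e3⟩))))))))))))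
    · have hb3 := hs _ _ h3
      have e3 : m 2 = 4 := by
        have n0 : m 2 ≠ 0 := fun h => absurd (hi _ _ _ h hb) (by decide)
        have n1 : m 2 ≠ 5 := fun h => absurd (hi _ _ _ h h0) (by decide)
        have n2 := h2 2
        have n3 : m 2 ≠ 1 := fun h => absurd (hi _ _ _ h hb3) (by decide)
        have n4 : m 2 ≠ 3 := fun h => absurd (hi _ _ _ h h3) (by decide)
        generalize m 2 = x at n0 n1 n2 n3 n4 ⊢
        revert x
        decide
      exact Or.inr (Or.inr (Or.inr (Or.inr (Or.inr (Or.inr (Or.inr (Or.inr (Or.inr (Or.inr (Or.inr (Or.inr (Or.inr (Or.inl ⟨h0, h3, e3⟩)))))))))))))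
    · have hb3 := hs _ _ h3
      have e3 : m 2 = 3 := by
        have n0 : m 2 ≠ 0 := fun h => absurd (hi _ _ _ h hb) (by decide)
        have n1 : m 2 ≠ 5 := fun h => absurd (hi _ _ _ h h0) (by decide)
        have n2 := h2 2
        have n3 : m 2 ≠ 1 := fun h => absurd (hi _ _ _ h hb3) (by decide)
        have n4 : m 2 ≠ 4 := fun h => absurd (hi _ _ _ h h3) (by decide)
        generalize m 2 = x at n0 n1 n2 n3 n4 ⊢
        revert x
        decide
      exact Or.inr (Or.inr (Or.inr (Or.inr (Or.inr (Or.inr (Or.inr (Or.inr (Or.inr (Or.inr (Or.inr (Or.inr (Or.inr (Or.inr (⟨h0, h3, e3⟩))))))))))))))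

/-- three whites `6, 7, 8`, blacks `0..5` of degree two -/
def E3 : List (Fin 9 × Fin 9) :=
  [(6, 0), (6, 1), (6, 2), (6, 3), (7, 0), (7, 1), (7, 4), (7, 5), (8, 2), (8, 3), (8, 4), (8, 5)]

theorem conc_E3 {V : Type} {G : SimpleGraph V} (φ : Fin 9 → V)
    (hφ : Function.Injective φ) (hE : ∀ e ∈ E3, G.Adj (φ e.1) (φ e.2)) (m : Fin 6 → Fin 6)
    (h1 : ∀ i, m (m i) = i) (h2 : ∀ i, m i ≠ i)
    (hm : ∀ i, G.Adj (φ (Fin.castLE (by decide) i)) (φ (Fin.castLE (by decide) (m i)))) :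
    TK G := by
  have hE' : ∀ (a b a' b' a'' b'' : Fin 6), m a = b → m a' = b' → m a'' = b'' →
      ∀ e ∈ E3 ++ [(Fin.castLE (by decide) a, Fin.castLE (by decide) b),
        (Fin.castLE (by decide) a', Fin.castLE (by decide) b'),
        (Fin.castLE (by decide) a'', Fin.castLE (by decide) b'')], G.Adj (φ e.1) (φ e.2) := by
    rintro a b a' b' a'' b'' rfl rfl rfl e he
    rcases List.mem_append.1 he with he | he
    · exact hE e he
    · simp only [List.mem_cons, List.not_mem_nil, or_false] at he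
      rcases he with rfl | rfl | rfl
      · exact hm a
      · exact hm a'
      · exact hm a''
  rcases matchings m h1 h2 with ⟨x, y, z⟩ | ⟨x, y, z⟩ | ⟨x, y, z⟩ | ⟨x, y, z⟩ | ⟨x, y, z⟩ | ⟨x, y, z⟩ | ⟨x, y, z⟩ | ⟨x, y, z⟩ | ⟨x, y, z⟩ | ⟨x, y, z⟩ | ⟨x, y, z⟩ | ⟨x, y, z⟩ | ⟨x, y, z⟩ | ⟨x, y, z⟩ | ⟨x, y, z⟩
  · exact TK_of_chk φ hφ _ (hE' _ _ _ _ _ _ x y z) 0 1 6 7
      [] [] [] [] [] [3, 2, 8, 5] (by decide)
  · exact TK_of_chk φ hφ _ (hE' _ _ _ _ _ _ x y z) 0 1 6 7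
      [] [] [] [] [] [3, 5] (by decide)
  · exact TK_of_chk φ hφ _ (hE' _ _ _ _ _ _ x y z) 0 1 6 7
      [] [] [] [] [] [3, 4] (by decide)
  · exact TK_of_chk φ hφ _ (hE' _ _ _ _ _ _ x y z) 0 2 6 7
      [] [] [] [] [8, 5] [3, 1] (by decide)
  · exact TK_of_chk φ hφ _ (hE' _ _ _ _ _ _ x y z) 0 2 6 7
      [] [] [] [] [8, 5] [1, 4] (by decide)
  · exact TK_of_chk φ hφ _ (hE' _ _ _ _ _ _ x y z) 0 2 6 7
      [] [] [] [] [8, 5] [3, 4] (by decide)
  · exact TK_of_chk φ hφ _ (hE' _ _ _ _ _ _ x y z) 0 3 6 7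
      [] [] [] [] [8, 5] [2, 1] (by decide)
  · exact TK_of_chk φ hφ _ (hE' _ _ _ _ _ _ x y z) 0 3 6 7
      [] [] [] [] [8, 5] [1, 4] (by decide)
  · exact TK_of_chk φ hφ _ (hE' _ _ _ _ _ _ x y z) 0 3 6 7
      [] [] [] [] [8, 5] [2, 4] (by decide)
  · exact TK_of_chk φ hφ _ (hE' _ _ _ _ _ _ x y z) 0 4 6 7
      [] [] [] [8, 3] [] [2, 1] (by decide)
  · exact TK_of_chk φ hφ _ (hE' _ _ _ _ _ _ x y z) 0 4 6 7
      [] [] [] [8, 3] [] [2, 5] (by decide)
  · exact TK_of_chk φ hφ _ (hE' _ _ _ _ _ _ x y z) 0 4 6 7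
      [] [] [] [8, 3] [] [1, 5] (by decide)
  · exact TK_of_chk φ hφ _ (hE' _ _ _ _ _ _ x y z) 0 5 6 7
      [] [] [] [8, 3] [] [2, 1] (by decide)
  · exact TK_of_chk φ hφ _ (hE' _ _ _ _ _ _ x y z) 0 5 6 7
      [] [] [] [8, 3] [] [2, 4] (by decide)
  · exact TK_of_chk φ hφ _ (hE' _ _ _ _ _ _ x y z) 0 5 6 7
      [] [] [] [8, 3] [] [1, 4] (by decide)

/-- four whites `7..10`, `6` is adjacent to all, the other blacks are the edges of `K₄` -/
def E4a : List (Fin 11 × Fin 11) :=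
  [(7, 6), (7, 0), (7, 1), (7, 2), (8, 6), (8, 0), (8, 3), (8, 4), (9, 6), (9, 1), (9, 3), (9, 5), (10, 6), (10, 2), (10, 4), (10, 5)]

theorem conc_E4a {V : Type} {G : SimpleGraph V} (φ : Fin 11 → V)
    (hφ : Function.Injective φ) (hE : ∀ e ∈ E4a, G.Adj (φ e.1) (φ e.2)) (m : Fin 6 → Fin 6)
    (h1 : ∀ i, m (m i) = i) (h2 : ∀ i, m i ≠ i)
    (hm : ∀ i, G.Adj (φ (Fin.castLE (by decide) i)) (φ (Fin.castLE (by decide) (m i)))) :
    TK G := by
  have hE' : ∀ (a b a' b' a'' b'' : Fin 6), m a = b → m a' = b' → m a'' = b'' →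
      ∀ e ∈ E4a ++ [(Fin.castLE (by decide) a, Fin.castLE (by decide) b),
        (Fin.castLE (by decide) a', Fin.castLE (by decide) b'),
        (Fin.castLE (by decide) a'', Fin.castLE (by decide) b'')], G.Adj (φ e.1) (φ e.2) := by
    rintro a b a' b' a'' b'' rfl rfl rfl e he
    rcases List.mem_append.1 he with he | he
    · exact hE e he
    · simp only [List.mem_cons, List.not_mem_nil, or_false] at he
      rcases he with rfl | rfl | rfl
      · exact hm a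
      · exact hm a'
      · exact hm a''
  rcases matchings m h1 h2 with ⟨x, y, z⟩ | ⟨x, y, z⟩ | ⟨x, y, z⟩ | ⟨x, y, z⟩ | ⟨x, y, z⟩ | ⟨x, y, z⟩ | ⟨x, y, z⟩ | ⟨x, y, z⟩ | ⟨x, y, z⟩ | ⟨x, y, z⟩ | ⟨x, y, z⟩ | ⟨x, y, z⟩ | ⟨x, y, z⟩ | ⟨x, y, z⟩ | ⟨x, y, z⟩
  · exact TK_of_chk φ hφ _ (hE' _ _ _ _ _ _ x y z) 0 1 2 7
      [] [8, 3] [] [9, 5, 4, 10] [] [] (by decide)
  · exact TK_of_chk φ hφ _ (hE' _ _ _ _ _ _ x y z) 0 1 2 7
      [] [8, 4] [] [9, 3, 5, 10] [] [] (by decide)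
  · exact TK_of_chk φ hφ _ (hE' _ _ _ _ _ _ x y z) 0 1 2 7
      [] [8, 3, 4, 10] [] [9, 5] [] [] (by decide)
  · exact TK_of_chk φ hφ _ (hE' _ _ _ _ _ _ x y z) 0 1 2 7
      [8, 3] [] [] [9, 5, 4, 10] [] [] (by decide)
  · exact TK_of_chk φ hφ _ (hE' _ _ _ _ _ _ x y z) 0 1 2 7
      [8, 4] [] [] [9, 3, 5, 10] [] [] (by decide)
  · exact TK_of_chk φ hφ _ (hE' _ _ _ _ _ _ x y z) 0 1 2 7
      [8, 4, 3, 9] [] [] [5, 10] [] [] (by decide)
  · exact TK_of_chk φ hφ _ (hE' _ _ _ _ _ _ x y z) 0 1 2 7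
      [3, 9] [8, 4, 5, 10] [] [] [] [] (by decide)
  · exact TK_of_chk φ hφ _ (hE' _ _ _ _ _ _ x y z) 0 3 4 8
      [] [7, 1] [] [9, 5, 2, 10] [] [] (by decide)
  · exact TK_of_chk φ hφ _ (hE' _ _ _ _ _ _ x y z) 0 1 2 7
      [3, 9] [8, 4] [] [5, 10] [] [] (by decide)
  · exact TK_of_chk φ hφ _ (hE' _ _ _ _ _ _ x y z) 0 1 2 7
      [8, 3, 5, 9] [4, 10] [] [] [] [] (by decide)
  · exact TK_of_chk φ hφ _ (hE' _ _ _ _ _ _ x y z) 0 1 2 7
      [8, 3] [4, 10] [] [9, 5] [] [] (by decide)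
  · exact TK_of_chk φ hφ _ (hE' _ _ _ _ _ _ x y z) 0 3 4 8
      [7, 2] [] [] [9, 1, 5, 10] [] [] (by decide)
  · exact TK_of_chk φ hφ _ (hE' _ _ _ _ _ _ x y z) 0 1 2 7
      [5, 9] [8, 3, 4, 10] [] [] [] [] (by decide)
  · exact TK_of_chk φ hφ _ (hE' _ _ _ _ _ _ x y z) 0 5 7 8
      [] [] [] [10, 6] [9, 3] [2, 4] (by decide)
  · exact TK_of_chk φ hφ _ (hE' _ _ _ _ _ _ x y z) 0 1 2 7
      [5, 9] [8, 3] [] [4, 10] [] [] (by decide)

/-- four whites `7..10`, `6` is adjacent to all, the other blacks are the edges of a cycle of length four with two doubled edges -/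
def E4b : List (Fin 11 × Fin 11) :=
  [(7, 6), (7, 0), (7, 1), (7, 2), (8, 6), (8, 0), (8, 1), (8, 3), (9, 6), (9, 4), (9, 5), (9, 3), (10, 6), (10, 4), (10, 5), (10, 2)]

theorem conc_E4b {V : Type} {G : SimpleGraph V} (φ : Fin 11 → V)
    (hφ : Function.Injective φ) (hE : ∀ e ∈ E4b, G.Adj (φ e.1) (φ e.2)) (m : Fin 6 → Fin 6)
    (h1 : ∀ i, m (m i) = i) (h2 : ∀ i, m i ≠ i)
    (hm : ∀ i, G.Adj (φ (Fin.castLE (by decide) i)) (φ (Fin.castLE (by decide) (m i)))) :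
    TK G := by
  have hE' : ∀ (a b a' b' a'' b'' : Fin 6), m a = b → m a' = b' → m a'' = b'' →
      ∀ e ∈ E4b ++ [(Fin.castLE (by decide) a, Fin.castLE (by decide) b),
        (Fin.castLE (by decide) a', Fin.castLE (by decide) b'),
        (Fin.castLE (by decide) a'', Fin.castLE (by decide) b'')], G.Adj (φ e.1) (φ e.2) := by
    rintro a b a' b' a'' b'' rfl rfl rfl e he
    rcases List.mem_append.1 he with he | he
    · exact hE e he
    · simp only [List.mem_cons, List.not_mem_nil, or_false] at he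
      rcases he with rfl | rfl | rfl
      · exact hm a
      · exact hm a'
      · exact hm a''
  rcases matchings m h1 h2 with ⟨x, y, z⟩ | ⟨x, y, z⟩ | ⟨x, y, z⟩ | ⟨x, y, z⟩ | ⟨x, y, z⟩ | ⟨x, y, z⟩ | ⟨x, y, z⟩ | ⟨x, y, z⟩ | ⟨x, y, z⟩ | ⟨x, y, z⟩ | ⟨x, y, z⟩ | ⟨x, y, z⟩ | ⟨x, y, z⟩ | ⟨x, y, z⟩ | ⟨x, y, z⟩
  · exact TK_of_chk φ hφ _ (hE' _ _ _ _ _ _ x y z) 0 1 7 8
      [] [] [] [] [] [2, 3] (by decide)
  · exact TK_of_chk φ hφ _ (hE' _ _ _ _ _ _ x y z) 0 1 7 8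
      [] [] [] [] [] [6, 10, 5, 3] (by decide)
  · exact TK_of_chk φ hφ _ (hE' _ _ _ _ _ _ x y z) 0 1 7 8
      [] [] [] [] [] [6, 10, 4, 3] (by decide)
  · exact TK_of_chk φ hφ _ (hE' _ _ _ _ _ _ x y z) 0 2 7 8
      [] [] [] [] [10, 6] [1, 3] (by decide)
  · exact TK_of_chk φ hφ _ (hE' _ _ _ _ _ _ x y z) 0 2 7 8
      [] [] [] [] [10, 6] [1, 4, 9, 3] (by decide)
  · exact TK_of_chk φ hφ _ (hE' _ _ _ _ _ _ x y z) 0 2 7 8
      [] [] [] [] [10, 6] [1, 5, 9, 3] (by decide)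
  · exact TK_of_chk φ hφ _ (hE' _ _ _ _ _ _ x y z) 0 3 7 8
      [] [] [] [9, 6] [] [2, 1] (by decide)
  · exact TK_of_chk φ hφ _ (hE' _ _ _ _ _ _ x y z) 0 3 7 8
      [] [] [] [9, 6] [] [2, 10, 4, 1] (by decide)
  · exact TK_of_chk φ hφ _ (hE' _ _ _ _ _ _ x y z) 0 3 7 8
      [] [] [] [9, 6] [] [2, 10, 5, 1] (by decide)
  · exact TK_of_chk φ hφ _ (hE' _ _ _ _ _ _ x y z) 0 4 7 8
      [] [] [] [10, 6] [9, 3] [2, 1] (by decide)
  · exact TK_of_chk φ hφ _ (hE' _ _ _ _ _ _ x y z) 0 4 7 8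
      [] [] [] [10, 2] [9, 6] [1, 3] (by decide)
  · exact TK_of_chk φ hφ _ (hE' _ _ _ _ _ _ x y z) 0 4 7 9
      [] [] [8, 6] [10, 2] [] [1, 5] (by decide)
  · exact TK_of_chk φ hφ _ (hE' _ _ _ _ _ _ x y z) 0 5 7 8
      [] [] [] [10, 6] [9, 3] [2, 1] (by decide)
  · exact TK_of_chk φ hφ _ (hE' _ _ _ _ _ _ x y z) 0 5 7 8
      [] [] [] [10, 2] [9, 6] [1, 3] (by decide)
  · exact TK_of_chk φ hφ _ (hE' _ _ _ _ _ _ x y z) 0 5 7 9
      [] [] [8, 6] [10, 2] [] [1, 4] (by decide)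

end Pool.Agent.TOKST
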