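import Mathlib
import Pool.Agent.TOKST3.Defs3
import Pool.Agent.TOKST3.Conc

/-!
# Module BASE3: three whites, all blacks of degree at least two
-/

set_option autoImplicit false
set_option linter.unusedSectionVars false

namespace Pool.Agent.TOKST

variable {V : Type} [DecidableEq V]

/-- the partner -/
def mate : Fin 6 → Fin 6 := ![1, 0, 3, 2, 5, 4]

theorem linkmap (x l : Fin 6 → V) (_hx : Function.Injective x) (hl : Function.Injective l)
    (h : ∀ i, ∃ j, l i = x j) : ∃ m : Fin 6 → Fin 6, (∀ i, m (m i) = i) ∧ (∀ i, m i ≠ i) ∧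
      ∀ i, R3 l (x i) (x (m i)) ∨ R3 l (x (m i)) (x i) := by
  choose σ hσ using h
  have hinj : Function.Injective σ := by
    intro i j hij
    apply hl
    rw [hσ i, hσ j, hij]
  let e : Fin 6 ≃ Fin 6 := Equiv.ofBijective σ (Finite.injective_iff_bijective.1 hinj)
  have he : ∀ i, σ (e.symm i) = i := fun i => e.apply_symm_apply i
  have he' : ∀ i, e.symm (σ i) = i := fun i => e.symm_apply_apply i
  have hm1 : ∀ i, mate (mate i) = i := by decide
  have hm2 : ∀ i, mate i ≠ i := by decide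
  refine ⟨fun i => σ (mate (e.symm i)), fun i => ?_, fun i h1 => ?_, fun i => ?_⟩
  · show σ (mate (e.symm (σ (mate (e.symm i))))) = i
    rw [he', hm1, he]
  · have h1' : σ (mate (e.symm i)) = i := h1
    have h2 : σ (mate (e.symm i)) = σ (e.symm i) := by rw [h1', he]
    exact hm2 _ (hinj h2)
  · have h1 : x i = l (e.symm i) := by rw [hσ, he]
    show R3 l (x i) (x (σ (mate (e.symm i)))) ∨ R3 l (x (σ (mate (e.symm i)))) (x i)
    rw [← hσ, h1]
    generalize e.symm i = j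
    fin_cases j
    · exact Or.inl (Or.inl ⟨rfl, rfl⟩)
    · exact Or.inr (Or.inl ⟨rfl, rfl⟩)
    · exact Or.inl (Or.inr (Or.inl ⟨rfl, rfl⟩))
    · exact Or.inr (Or.inr (Or.inl ⟨rfl, rfl⟩))
    · exact Or.inl (Or.inr (Or.inr ⟨rfl, rfl⟩))
    · exact Or.inr (Or.inr (Or.inr ⟨rfl, rfl⟩))

theorem T3_three {W : Finset V} {N : V → Finset V} (h : Rigid W N) (hW : W.card = 3)
    (hWN : ∀ x ∈ W, x ∉ NN N W) (h2 : ∀ c ∈ NN N W, 2 ≤ dg W N c) (l : Fin 6 → V)
    (hl : Function.Injective l) (hlN : ∀ i, l i ∈ NN N W) : TK (LG W N (R3 l)) := by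
  obtain ⟨w1, w2, w3, h12, h13, h23, hWeq⟩ := Finset.card_eq_three.1 hW
  have hw1 : w1 ∈ W := by rw [hWeq]; simp
  have hw2 : w2 ∈ W := by rw [hWeq]; simp
  have hw3 : w3 ∈ W := by rw [hWeq]; simp
  have hd2 : ∀ c ∈ NN N W, dg W N c = 2 := by
    intro c hc
    by_contra h3
    have h4 := h2 c hc
    have h5 := deg_count h h2 {c} (Finset.singleton_subset_iff.2 hc) (by
      intro x hx
      rw [Finset.mem_singleton.1 hx]
      omega)
    rw [Finset.card_singleton] at h5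
    omega
  have hsum : ∀ c ∈ NN N W, (if c ∈ N w1 then 1 else 0) + (if c ∈ N w2 then 1 else 0) +
      (if c ∈ N w3 then 1 else 0) = 2 := by
    intro c hc
    have h3 := hd2 c hc
    unfold dg at h3
    rw [Finset.card_filter, hWeq, Finset.sum_insert (by simp [h12, h13]),
      Finset.sum_insert (by simp [h23]), Finset.sum_singleton] at h3
    omega
  have hN1 : ∀ c, c ∈ N w1 → c ∈ NN N W := fun c hc => N_subset_NN hw1 hc
  have hN2 : ∀ c, c ∈ N w2 → c ∈ NN N W := fun c hc => N_subset_NN hw2 hc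
  have hN3 : ∀ c, c ∈ N w3 → c ∈ NN N W := fun c hc => N_subset_NN hw3 hc
  -- no black is adjacent to all
  have hnot : ∀ c, c ∈ N w1 → c ∈ N w2 → c ∈ N w3 → False := by
    intro c h3 h4 h5
    have := hsum c (hN1 c h3)
    rw [if_pos h3, if_pos h4, if_pos h5] at this
    omega
  have hor1 : ∀ c, c ∈ N w1 → c ∈ N w2 ∨ c ∈ N w3 := by
    intro c h3
    by_contra h4
    push Not at h4
    have := hsum c (hN1 c h3)
    rw [if_pos h3, if_neg h4.1, if_neg h4.2] at this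
    omega
  have hor2 : ∀ c, c ∈ N w2 → c ∈ N w1 ∨ c ∈ N w3 := by
    intro c h3
    by_contra h4
    push Not at h4
    have := hsum c (hN2 c h3)
    rw [if_pos h3, if_neg h4.1, if_neg h4.2] at this
    omega
  have hor3 : ∀ c, c ∈ N w3 → c ∈ N w1 ∨ c ∈ N w2 := by
    intro c h3
    by_contra h4
    push Not at h4
    have := hsum c (hN3 c h3)
    rw [if_pos h3, if_neg h4.1, if_neg h4.2] at this
    omega
  have e1 : (N w1 ∩ N w2).card + (N w1 ∩ N w3).card = 4 := by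
    rw [← h.four w1 hw1, ← Finset.card_union_of_disjoint]
    · congr 1
      ext c
      simp only [Finset.mem_union, Finset.mem_inter]
      have := hor1 c
      tauto
    · rw [Finset.disjoint_left]
      intro c h3 h4
      rw [Finset.mem_inter] at h3 h4
      exact hnot c h3.1 h3.2 h4.2
  have e2 : (N w1 ∩ N w2).card + (N w2 ∩ N w3).card = 4 := by
    rw [← h.four w2 hw2, ← Finset.card_union_of_disjoint]
    · congr 1
      ext c
      simp only [Finset.mem_union, Finset.mem_inter]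
      have := hor2 c
      tauto
    · rw [Finset.disjoint_left]
      intro c h3 h4
      rw [Finset.mem_inter] at h3 h4
      exact hnot c h3.1 h3.2 h4.2
  have e3 : (N w1 ∩ N w3).card + (N w2 ∩ N w3).card = 4 := by
    rw [← h.four w3 hw3, ← Finset.card_union_of_disjoint]
    · congr 1
      ext c
      simp only [Finset.mem_union, Finset.mem_inter]
      have := hor3 c
      tauto
    · rw [Finset.disjoint_left]
      intro c h3 h4
      rw [Finset.mem_inter] at h3 h4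
      exact hnot c h3.1 h4.1 h3.2
  obtain ⟨a, b, hab, hP12⟩ := Finset.card_eq_two.1 (show (N w1 ∩ N w2).card = 2 by omega)
  obtain ⟨c, d, hcd, hP13⟩ := Finset.card_eq_two.1 (show (N w1 ∩ N w3).card = 2 by omega)
  obtain ⟨e, f, hef, hP23⟩ := Finset.card_eq_two.1 (show (N w2 ∩ N w3).card = 2 by omega)
  have ha := Finset.mem_inter.1 (show a ∈ N w1 ∩ N w2 by rw [hP12]; simp)
  have hb := Finset.mem_inter.1 (show b ∈ N w1 ∩ N w2 by rw [hP12]; simp)
  have hc := Finset.mem_inter.1 (show c ∈ N w1 ∩ N w3 by rw [hP13]; simp)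
  have hd := Finset.mem_inter.1 (show d ∈ N w1 ∩ N w3 by rw [hP13]; simp)
  have he := Finset.mem_inter.1 (show e ∈ N w2 ∩ N w3 by rw [hP23]; simp)
  have hf := Finset.mem_inter.1 (show f ∈ N w2 ∩ N w3 by rw [hP23]; simp)
  have dW : ∀ u c, u ∈ W → c ∈ NN N W → c ≠ u := fun u c hu hc h3 => hWN u hu (h3 ▸ hc)
  -- disjointness
  have d1 : ∀ x y, (x ∈ N w1 ∧ x ∈ N w2) → (y ∈ N w1 ∧ y ∈ N w3) → x ≠ y := by
    rintro x y h3 h4 rfl
    exact hnot x h3.1 h3.2 h4.2
  have d2 : ∀ x y, (x ∈ N w1 ∧ x ∈ N w2) → (y ∈ N w2 ∧ y ∈ N w3) → x ≠ y := by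
    rintro x y h3 h4 rfl
    exact hnot x h3.1 h3.2 h4.2
  have d3 : ∀ x y, (x ∈ N w1 ∧ x ∈ N w3) → (y ∈ N w2 ∧ y ∈ N w3) → x ≠ y := by
    rintro x y h3 h4 rfl
    exact hnot x h3.1 h4.1 h3.2
  have hnd : [a, b, c, d, e, f, w1, w2, w3].Nodup := by
    simp only [List.nodup_cons, List.mem_cons, not_or, List.not_mem_nil, not_false_eq_true,
      List.nodup_nil, and_true]
    exact ⟨⟨hab, d1 _ _ ha hc, d1 _ _ ha hd, d2 _ _ ha he, d2 _ _ ha hf, dW _ _ hw1 (hN1 _ ha.1),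
        dW _ _ hw2 (hN1 _ ha.1), dW _ _ hw3 (hN1 _ ha.1)⟩,
      ⟨d1 _ _ hb hc, d1 _ _ hb hd, d2 _ _ hb he, d2 _ _ hb hf, dW _ _ hw1 (hN1 _ hb.1),
        dW _ _ hw2 (hN1 _ hb.1), dW _ _ hw3 (hN1 _ hb.1)⟩,
      ⟨hcd, d3 _ _ hc he, d3 _ _ hc hf, dW _ _ hw1 (hN1 _ hc.1), dW _ _ hw2 (hN1 _ hc.1),
        dW _ _ hw3 (hN1 _ hc.1)⟩,
      ⟨d3 _ _ hd he, d3 _ _ hd hf, dW _ _ hw1 (hN1 _ hd.1), dW _ _ hw2 (hN1 _ hd.1),
        dW _ _ hw3 (hN1 _ hd.1)⟩,
      ⟨hef, dW _ _ hw1 (hN2 _ he.1), dW _ _ hw2 (hN2 _ he.1), dW _ _ hw3 (hN2 _ he.1)⟩,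
      ⟨dW _ _ hw1 (hN2 _ hf.1), dW _ _ hw2 (hN2 _ hf.1), dW _ _ hw3 (hN2 _ hf.1)⟩,
      ⟨h12, h13⟩, h23⟩
  let φ : Fin 9 → V := [a, b, c, d, e, f, w1, w2, w3].get
  have hφ : Function.Injective φ := List.nodup_iff_injective_get.1 hnd
  have hA : ∀ w ∈ W, ∀ c ∈ N w, (LG W N (R3 l)).Adj w c := by
    intro w hw c hc
    rw [LG_adj]
    exact ⟨fun h3 => hWN w hw (h3 ▸ N_subset_NN hw hc), Or.inl (Or.inl ⟨hw, hc⟩)⟩
  have hE : ∀ e ∈ E3, (LG W N (R3 l)).Adj (φ e.1) (φ e.2) := by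
    simp only [E3, List.forall_mem_cons, List.not_mem_nil, false_implies, implies_true, and_true]
    exact ⟨hA _ hw1 _ ha.1, hA _ hw1 _ hb.1, hA _ hw1 _ hc.1, hA _ hw1 _ hd.1,
      hA _ hw2 _ ha.2, hA _ hw2 _ hb.2, hA _ hw2 _ he.1, hA _ hw2 _ hf.1,
      hA _ hw3 _ hc.2, hA _ hw3 _ hd.2, hA _ hw3 _ he.2, hA _ hw3 _ hf.2⟩
  have hx : Function.Injective (fun i : Fin 6 => φ (Fin.castLE (by decide) i)) :=
    hφ.comp (Fin.castLE_injective (by decide))
  obtain ⟨m, hm1, hm2, hm3⟩ := linkmap (fun i : Fin 6 => φ (Fin.castLE (by decide) i)) l hx hl (by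
    intro i
    have key : ∀ y, y ∈ NN N W → y = a ∨ y = b ∨ y = c ∨ y = d ∨ y = e ∨ y = f := by
      intro y hy
      have q12 : ∀ y, y ∈ N w1 → y ∈ N w2 → y = a ∨ y = b := by
        intro y h3 h4
        have : y ∈ N w1 ∩ N w2 := Finset.mem_inter.2 ⟨h3, h4⟩
        rw [hP12] at this
        simpa using this
      have q13 : ∀ y, y ∈ N w1 → y ∈ N w3 → y = c ∨ y = d := by
        intro y h3 h4
        have : y ∈ N w1 ∩ N w3 := Finset.mem_inter.2 ⟨h3, h4⟩
        rw [hP13] at this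
        simpa using this
      have q23 : ∀ y, y ∈ N w2 → y ∈ N w3 → y = e ∨ y = f := by
        intro y h3 h4
        have : y ∈ N w2 ∩ N w3 := Finset.mem_inter.2 ⟨h3, h4⟩
        rw [hP23] at this
        simpa using this
      have r12 : y ∈ N w1 → y ∈ N w2 → y = a ∨ y = b ∨ y = c ∨ y = d ∨ y = e ∨ y = f := by
        intro h3 h4
        rcases q12 y h3 h4 with h5 | h5
        · exact Or.inl h5
        · exact Or.inr (Or.inl h5)
      have r13 : y ∈ N w1 → y ∈ N w3 → y = a ∨ y = b ∨ y = c ∨ y = d ∨ y = e ∨ y = f := by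
        intro h3 h4
        rcases q13 y h3 h4 with h5 | h5
        · exact Or.inr (Or.inr (Or.inl h5))
        · exact Or.inr (Or.inr (Or.inr (Or.inl h5)))
      have r23 : y ∈ N w2 → y ∈ N w3 → y = a ∨ y = b ∨ y = c ∨ y = d ∨ y = e ∨ y = f := by
        intro h3 h4
        rcases q23 y h3 h4 with h5 | h5
        · exact Or.inr (Or.inr (Or.inr (Or.inr (Or.inl h5))))
        · exact Or.inr (Or.inr (Or.inr (Or.inr (Or.inr h5))))
      obtain ⟨w, hw, hyw⟩ := mem_NN.1 hy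
      rw [hWeq] at hw
      simp only [Finset.mem_insert, Finset.mem_singleton] at hw
      rcases hw with rfl | rfl | rfl
      · rcases hor1 y hyw with h3 | h3
        · exact r12 hyw h3
        · exact r13 hyw h3
      · rcases hor2 y hyw with h3 | h3
        · exact r12 h3 hyw
        · exact r23 hyw h3
      · rcases hor3 y hyw with h3 | h3
        · exact r13 h3 hyw
        · exact r23 h3 hyw
    rcases key _ (hlN i) with h3 | h3 | h3 | h3 | h3 | h3
    · exact ⟨0, h3⟩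
    · exact ⟨1, h3⟩
    · exact ⟨2, h3⟩
    · exact ⟨3, h3⟩
    · exact ⟨4, h3⟩
    · exact ⟨5, h3⟩)
  refine conc_E3 φ hφ hE m hm1 hm2 fun i => ?_
  rw [LG_adj]
  refine ⟨fun h3 => hm2 i (hx h3).symm, ?_⟩
  rcases hm3 i with h3 | h3
  · exact Or.inl (Or.inr h3)
  · exact Or.inr (Or.inr h3)

end Pool.Agent.TOKST
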