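import Mathlib
import Pool.Agent.TOKST3.Defs3
import Pool.Agent.TOKST3.Conc
import Pool.Agent.TOKST3.Base3

/-!
# Module BASE4: four whites, one black adjacent to all of them

`|NN N W| = 7`, the sum of the degrees is `16` (`sum_dg_rigid`), `dg W N z = 4`, so the six other
blacks have degree exactly two. `W = {w1, w2, w3, w4}`, `Pij = (N wi ∩ N wj).erase z`, pairwise
disjoint; `xij = |Pij|`. Every `c ∈ N w1`, `c ≠ z`, is in exactly one of `P12, P13, P14`:
`x12 + x13 + x14 = 3`, and similarly for the others; `xij ≤ 2` since `|N wi ∪ N wj| ≥ 5`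
(`h.sur`). So (omega) `x12 = x34`, `x13 = x24`, `x14 = x23`, and `(x12, x13, x14)` is `(1, 1, 1)`
or a permutation of `(2, 1, 0)`.
 `(1, 1, 1)`: `conc_E4a`, `φ = ![u12, u13, u14, u23, u24, u34, z, w1, w2, w3, w4]`.
 `(2, 0, 1)`: `P12 = {a, b}`, `P34 = {e, f}`, `P14 = {c}`, `P23 = {d}`: `conc_E4b`,
 `φ = ![a, b, c, d, e, f, z, w1, w2, w3, w4]`. The other five permutations: permute the whites
 (prove first a lemma with whites `w1 w2 w3 w4` and the hypotheses `x12 = 2`, `x14 = 1`, ...).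
The links: `l i` is one of the six blacks different from `z`; `linkmap` (module BASE3).
-/

set_option autoImplicit false
set_option linter.unusedSectionVars false

namespace Pool.Agent.TOKST

variable {V : Type} [DecidableEq V]

/-- all blacks different from `z` have degree two -/
private theorem four_deg {W : Finset V} {N : V → Finset V} (h : Rigid W N) (hW : W.card = 4)
    (h2 : ∀ c ∈ NN N W, 2 ≤ dg W N c) {z : V} (hz : ∀ w ∈ W, z ∈ N w) :
    ∀ c ∈ NN N W, c ≠ z → dg W N c = 2 := by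
  have hne : W.Nonempty := Finset.card_pos.1 (by omega)
  obtain ⟨w0, hw0⟩ := hne
  have hzN : z ∈ NN N W := N_subset_NN hw0 (hz w0 hw0)
  have h3 := sum_dg_rigid h
  rw [← Finset.add_sum_erase _ _ hzN] at h3
  have h4 : dg W N z = 4 := by
    unfold dg
    rw [Finset.filter_true_of_mem hz, hW]
  intro c hc hcz
  have hc' : c ∈ (NN N W).erase z := Finset.mem_erase.2 ⟨hcz, hc⟩
  rw [← Finset.add_sum_erase _ _ hc'] at h3
  have h5 : ∑ x ∈ ((NN N W).erase z).erase c, 2 ≤ ∑ x ∈ ((NN N W).erase z).erase c, dg W N x :=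
    Finset.sum_le_sum fun x hx => h2 x (Finset.mem_of_mem_erase (Finset.mem_of_mem_erase hx))
  rw [Finset.sum_const, smul_eq_mul, Finset.card_erase_of_mem hc', Finset.card_erase_of_mem hzN,
    h.tot, hW] at h5
  have h6 := h2 c hc
  omega

/-- no black different from `z` is adjacent to three whites -/
private theorem four_no3 {W : Finset V} {N : V → Finset V} {z : V}
    (hd : ∀ c ∈ NN N W, c ≠ z → dg W N c = 2) (w : Fin 4 → V) (hw : Function.Injective w)
    (hwW : ∀ i, w i ∈ W) {c : V} (hcz : c ≠ z) {i j : Fin 4} (k : Fin 4) (hij : i ≠ j)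
    (hik : i ≠ k) (hjk : j ≠ k) (hi : c ∈ N (w i)) (hj : c ∈ N (w j)) : c ∉ N (w k) := by
  intro hk
  have h1 := hd c (N_subset_NN (hwW i) hi) hcz
  have h3 : ({w i, w j, w k} : Finset V) ⊆ W.filter fun u => c ∈ N u := by
    intro u hu
    simp only [Finset.mem_insert, Finset.mem_singleton] at hu
    rcases hu with rfl | rfl | rfl
    · exact Finset.mem_filter.2 ⟨hwW i, hi⟩
    · exact Finset.mem_filter.2 ⟨hwW j, hj⟩
    · exact Finset.mem_filter.2 ⟨hwW k, hk⟩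
  have h4 := Finset.card_le_card h3
  rw [Finset.card_eq_three.2 ⟨w i, w j, w k, hw.ne hij, hw.ne hik, hw.ne hjk, rfl⟩] at h4
  unfold dg at h1
  omega

/-- every black is adjacent to a second white -/
private theorem four_two {W : Finset V} {N : V → Finset V} {z : V}
    (hd : ∀ c ∈ NN N W, c ≠ z → dg W N c = 2) (w : Fin 4 → V)
    (hwW : ∀ i, w i ∈ W) (hWw : ∀ u ∈ W, ∃ i, w i = u) {c : V} (hcz : c ≠ z) (i : Fin 4)
    (hi : c ∈ N (w i)) : ∃ j, j ≠ i ∧ c ∈ N (w j) := by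
  have h1 := hd c (N_subset_NN (hwW i) hi) hcz
  unfold dg at h1
  have h3 : 1 < (W.filter fun u => c ∈ N u).card := by omega
  obtain ⟨u, hu, hne⟩ := Finset.exists_mem_ne h3 (w i)
  rw [Finset.mem_filter] at hu
  obtain ⟨j, rfl⟩ := hWw u hu.1
  exact ⟨j, fun h => hne (by rw [h]), hu.2⟩

/-- the sum of the sizes of the three intersections at a white -/
private theorem four_cards {W : Finset V} {N : V → Finset V} {z : V} (h : Rigid W N)
    (hz : ∀ w ∈ W, z ∈ N w)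
    (hd : ∀ c ∈ NN N W, c ≠ z → dg W N c = 2) (w : Fin 4 → V) (hw : Function.Injective w)
    (hwW : ∀ i, w i ∈ W) (hWw : ∀ u ∈ W, ∃ i, w i = u) (i j k l : Fin 4) (hij : i ≠ j)
    (hik : i ≠ k) (hil : i ≠ l) (hjk : j ≠ k) (hjl : j ≠ l) (hkl : k ≠ l)
    (hall : ∀ m, m = i ∨ m = j ∨ m = k ∨ m = l) :
    ((N (w i) ∩ N (w j)).erase z).card + ((N (w i) ∩ N (w k)).erase z).card
      + ((N (w i) ∩ N (w l)).erase z).card = 3 := by
  have h1 : (N (w i)).erase z = ((N (w i) ∩ N (w j)).erase z ∪ (N (w i) ∩ N (w k)).erase z)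
      ∪ (N (w i) ∩ N (w l)).erase z := by
    ext c
    simp only [Finset.mem_erase, Finset.mem_union, Finset.mem_inter]
    constructor
    · rintro ⟨hcz, hc⟩
      obtain ⟨m, hm, hcm⟩ := four_two hd w hwW hWw hcz i hc
      rcases hall m with rfl | rfl | rfl | rfl
      · exact absurd rfl hm
      · exact Or.inl (Or.inl ⟨hcz, hc, hcm⟩)
      · exact Or.inl (Or.inr ⟨hcz, hc, hcm⟩)
      · exact Or.inr ⟨hcz, hc, hcm⟩
    · rintro ((⟨hcz, hc, -⟩ | ⟨hcz, hc, -⟩) | ⟨hcz, hc, -⟩) <;> exact ⟨hcz, hc⟩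
  have h2 : Disjoint ((N (w i) ∩ N (w j)).erase z) ((N (w i) ∩ N (w k)).erase z) := by
    rw [Finset.disjoint_left]
    intro c hc hc'
    rw [Finset.mem_erase, Finset.mem_inter] at hc hc'
    exact four_no3 hd w hw hwW hc.1 k hij hik hjk hc.2.1 hc.2.2 hc'.2.2
  have h3 : Disjoint ((N (w i) ∩ N (w j)).erase z ∪ (N (w i) ∩ N (w k)).erase z)
      ((N (w i) ∩ N (w l)).erase z) := by
    rw [Finset.disjoint_left]
    intro c hc hc'
    rw [Finset.mem_union] at hc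
    rw [Finset.mem_erase, Finset.mem_inter] at hc'
    rcases hc with hc | hc
    · rw [Finset.mem_erase, Finset.mem_inter] at hc
      exact four_no3 hd w hw hwW hc.1 l hij hil hjl hc.2.1 hc.2.2 hc'.2.2
    · rw [Finset.mem_erase, Finset.mem_inter] at hc
      exact four_no3 hd w hw hwW hc.1 l hik hil hkl hc.2.1 hc.2.2 hc'.2.2
  have h4 := congrArg Finset.card h1
  rw [Finset.card_union_of_disjoint h3, Finset.card_union_of_disjoint h2,
    Finset.card_erase_of_mem (hz _ (hwW i)), h.four _ (hwW i)] at h4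
  omega

/-- two whites have at most two common blacks different from `z` -/
private theorem four_le {W : Finset V} {N : V → Finset V} {z : V} (h : Rigid W N)
    (hz : ∀ w ∈ W, z ∈ N w) {a b : V} (ha : a ∈ W) (hb : b ∈ W) (hab : a ≠ b) :
    ((N a ∩ N b).erase z).card ≤ 2 := by
  have h1 := h.sur {a, b} (by
    intro u hu
    simp only [Finset.mem_insert, Finset.mem_singleton] at hu
    rcases hu with rfl | rfl
    · exact ha
    · exact hb) ⟨a, by simp⟩
  rw [Finset.card_pair hab, NN_insert, NN_singleton] at h1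
  have h2 := Finset.card_union_add_card_inter (N a) (N b)
  rw [h.four a ha, h.four b hb] at h2
  rw [Finset.card_erase_of_mem (Finset.mem_inter.2 ⟨hz a ha, hz b hb⟩)]
  omega

/-- the last step: an embedding of one of the two concrete structures -/
private theorem four_fin {W : Finset V} {N : V → Finset V} (h : Rigid W N) (hW : W.card = 4)
    (hWN : ∀ x ∈ W, x ∉ NN N W) {z : V}
    (hz : ∀ w ∈ W, z ∈ N w) (l : Fin 6 → V) (hl : Function.Injective l)
    (hlN : ∀ i, l i ∈ NN N W) (hzl : ∀ i, l i ≠ z) (φ : Fin 11 → V)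
    (hφ : Function.Injective φ) (h6 : φ 6 = z) (hb : ∀ i : Fin 6, φ (Fin.castLE (by decide) i) ∈ NN N W)
    (E : List (Fin 11 × Fin 11)) (hEE : E = E4a ∨ E = E4b)
    (hE : ∀ e ∈ E, φ e.1 ∈ W ∧ φ e.2 ∈ N (φ e.1)) : TK (LG W N (R3 l)) := by
  have hne : W.Nonempty := Finset.card_pos.1 (by omega)
  obtain ⟨w0, hw0⟩ := hne
  have hzN : z ∈ NN N W := N_subset_NN hw0 (hz w0 hw0)
  set x : Fin 6 → V := fun i => φ (Fin.castLE (by decide) i) with hx
  have hxi : Function.Injective x := hφ.comp (Fin.castLE_injective _)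
  have hxz : ∀ i, x i ≠ z := by
    intro i hi
    rw [← h6] at hi
    have h7 := hφ hi
    have h8 := congrArg Fin.val h7
    have h9 := i.isLt
    simp only [Fin.val_castLE] at h8
    have h10 : (6 : Fin 11).val = 6 := rfl
    omega
  have himg : Finset.univ.image x = (NN N W).erase z := by
    apply Finset.eq_of_subset_of_card_le
    · intro c hc
      obtain ⟨i, -, rfl⟩ := Finset.mem_image.1 hc
      exact Finset.mem_erase.2 ⟨hxz i, hb i⟩
    · rw [Finset.card_image_of_injective _ hxi, Finset.card_erase_of_mem hzN, h.tot, hW]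
      simp
  obtain ⟨m, m1, m2, m3⟩ := linkmap x l hxi hl (fun i => by
    have h7 : l i ∈ Finset.univ.image x := by
      rw [himg]
      exact Finset.mem_erase.2 ⟨hzl i, hlN i⟩
    obtain ⟨j, -, hj⟩ := Finset.mem_image.1 h7
    exact ⟨j, hj.symm⟩)
  have hE' : ∀ e ∈ E, (LG W N (R3 l)).Adj (φ e.1) (φ e.2) := by
    intro e he
    obtain ⟨h7, h8⟩ := hE e he
    rw [LG_adj]
    refine ⟨?_, Or.inl (Or.inl ⟨h7, h8⟩)⟩
    intro h9
    rw [← h9] at h8
    exact hWN _ h7 (N_subset_NN h7 h8)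
  have hm : ∀ i : Fin 6, (LG W N (R3 l)).Adj (x i) (x (m i)) := by
    intro i
    rw [LG_adj]
    refine ⟨fun h7 => m2 i (hxi h7).symm, ?_⟩
    rcases m3 i with h7 | h7
    · exact Or.inl (Or.inr h7)
    · exact Or.inr (Or.inr h7)
  rcases hEE with rfl | rfl
  · exact conc_E4a φ hφ hE' m m1 m2 hm
  · exact conc_E4b φ hφ hE' m m1 m2 hm

/-- injectivity of a list of six blacks, `z` and four whites -/
private theorem four_inj {W : Finset V} {N : V → Finset V}
    (hWN : ∀ x ∈ W, x ∉ NN N W) {z : V} (hzN : z ∈ NN N W) (a0 a1 a2 a3 a4 a5 : V)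
    (w : Fin 4 → V) (hw : Function.Injective w) (hwW : ∀ i, w i ∈ W) (i j k l : Fin 4) (hij : i ≠ j)
    (hik : i ≠ k) (hil : i ≠ l) (hjk : j ≠ k) (hjl : j ≠ l) (hkl : k ≠ l)
    (hnd : [a0, a1, a2, a3, a4, a5].Nodup)
    (hN : ∀ c ∈ [a0, a1, a2, a3, a4, a5], c ∈ NN N W ∧ c ≠ z) :
    Function.Injective ![a0, a1, a2, a3, a4, a5, z, w i, w j, w k, w l] := by
  rw [← List.nodup_ofFn]
  have h1 : List.ofFn ![a0, a1, a2, a3, a4, a5, z, w i, w j, w k, w l]
      = [a0, a1, a2, a3, a4, a5] ++ ([z] ++ [w i, w j, w k, w l]) := rfl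
  have h2 : ∀ u ∈ [w i, w j, w k, w l], u ∉ NN N W := by
    intro u hu
    simp only [List.mem_cons, List.not_mem_nil, or_false] at hu
    rcases hu with rfl | rfl | rfl | rfl <;> exact hWN _ (hwW _)
  rw [h1, List.nodup_append]
  refine ⟨hnd, ?_, ?_⟩
  · rw [List.nodup_append]
    refine ⟨List.nodup_singleton z, ?_, ?_⟩
    · simp only [List.nodup_cons, List.mem_cons, List.not_mem_nil, or_false, not_or,
        not_false_eq_true, List.nodup_nil, and_true]
      exact ⟨⟨hw.ne hij, hw.ne hik, hw.ne hil⟩, ⟨hw.ne hjk, hw.ne hjl⟩, hw.ne hkl⟩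
    · intro a ha b hb hab
      rw [List.mem_singleton] at ha
      rw [ha] at hab
      rw [← hab] at hb
      exact h2 _ hb hzN
  · intro a ha b hb hab
    rw [List.mem_append, List.mem_singleton] at hb
    rcases hb with hb | hb
    · exact (hN a ha).2 (hab.trans hb)
    · rw [← hab] at hb
      exact h2 _ hb (hN a ha).1

/-- case `(1, 1, 1)` -/
private theorem four_a {W : Finset V} {N : V → Finset V} (h : Rigid W N) (hW : W.card = 4)
    (hWN : ∀ x ∈ W, x ∉ NN N W) {z : V}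
    (hz : ∀ w ∈ W, z ∈ N w) (l : Fin 6 → V) (hl : Function.Injective l)
    (hlN : ∀ i, l i ∈ NN N W) (hzl : ∀ i, l i ≠ z)
    (hd : ∀ c ∈ NN N W, c ≠ z → dg W N c = 2) (w : Fin 4 → V) (hw : Function.Injective w)
    (hwW : ∀ i, w i ∈ W) {u12 u13 u14 u23 u24 u34 : V}
    (h12 : u12 ∈ (N (w 0) ∩ N (w 1)).erase z) (h13 : u13 ∈ (N (w 0) ∩ N (w 2)).erase z)
    (h14 : u14 ∈ (N (w 0) ∩ N (w 3)).erase z) (h23 : u23 ∈ (N (w 1) ∩ N (w 2)).erase z)
    (h24 : u24 ∈ (N (w 1) ∩ N (w 3)).erase z) (h34 : u34 ∈ (N (w 2) ∩ N (w 3)).erase z) :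
    TK (LG W N (R3 l)) := by
  rw [Finset.mem_erase, Finset.mem_inter] at h12 h13 h14 h23 h24 h34
  have ne : ∀ {x y u : V}, x ∈ N u → y ∉ N u → x ≠ y := fun h1 h2 h3 => h2 (h3 ▸ h1)
  have no3 : ∀ {c : V}, c ≠ z → ∀ (i j k : Fin 4), i ≠ j → i ≠ k → j ≠ k → c ∈ N (w i) →
      c ∈ N (w j) → c ∉ N (w k) := fun hcz i j k a b c' => four_no3 hd w hw hwW hcz k a b c'
  have a13 := no3 h13.1 0 2 1 (by decide) (by decide) (by decide) h13.2.1 h13.2.2
  have a14 := no3 h14.1 0 3 1 (by decide) (by decide) (by decide) h14.2.1 h14.2.2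
  have a14' := no3 h14.1 0 3 2 (by decide) (by decide) (by decide) h14.2.1 h14.2.2
  have a23 := no3 h23.1 1 2 0 (by decide) (by decide) (by decide) h23.2.1 h23.2.2
  have a24 := no3 h24.1 1 3 0 (by decide) (by decide) (by decide) h24.2.1 h24.2.2
  have a24' := no3 h24.1 1 3 2 (by decide) (by decide) (by decide) h24.2.1 h24.2.2
  have a34 := no3 h34.1 2 3 0 (by decide) (by decide) (by decide) h34.2.1 h34.2.2
  have a34' := no3 h34.1 2 3 1 (by decide) (by decide) (by decide) h34.2.1 h34.2.2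
  have hnd : [u12, u13, u14, u23, u24, u34].Nodup := by
    simp only [List.nodup_cons, List.mem_cons, List.not_mem_nil, or_false, not_or,
      not_false_eq_true, List.nodup_nil, and_true]
    exact ⟨⟨ne h12.2.2 a13, ne h12.2.2 a14, ne h12.2.1 a23, ne h12.2.1 a24, ne h12.2.1 a34⟩,
      ⟨ne h13.2.2 a14', ne h13.2.1 a23, ne h13.2.1 a24, ne h13.2.1 a34⟩,
      ⟨ne h14.2.1 a23, ne h14.2.1 a24, ne h14.2.1 a34⟩,
      ⟨ne h23.2.2 a24', ne h23.2.1 a34'⟩, ne h24.2.1 a34'⟩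
  have hmN : ∀ {c : V} (i : Fin 4), c ∈ N (w i) → c ∈ NN N W := fun i hc => N_subset_NN (hwW i) hc
  have hN : ∀ c ∈ [u12, u13, u14, u23, u24, u34], c ∈ NN N W ∧ c ≠ z := by
    intro c hc
    simp only [List.mem_cons, List.not_mem_nil, or_false] at hc
    rcases hc with rfl | rfl | rfl | rfl | rfl | rfl
    · exact ⟨hmN _ h12.2.1, h12.1⟩
    · exact ⟨hmN _ h13.2.1, h13.1⟩
    · exact ⟨hmN _ h14.2.1, h14.1⟩
    · exact ⟨hmN _ h23.2.1, h23.1⟩
    · exact ⟨hmN _ h24.2.1, h24.1⟩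
    · exact ⟨hmN _ h34.2.1, h34.1⟩
  have hzz : ∀ i, z ∈ N (w i) := fun i => hz _ (hwW i)
  have hφ := four_inj hWN (hmN 0 (hzz 0)) u12 u13 u14 u23 u24 u34 w hw hwW 0 1 2 3 (by decide)
    (by decide) (by decide) (by decide) (by decide) (by decide) hnd hN
  refine four_fin h hW hWN hz l hl hlN hzl _ hφ rfl ?_ E4a (Or.inl rfl) ?_
  · intro i
    fin_cases i
    · exact hmN _ h12.2.1
    · exact hmN _ h13.2.1
    · exact hmN _ h14.2.1
    · exact hmN _ h23.2.1
    · exact hmN _ h24.2.1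
    · exact hmN _ h34.2.1
  · intro e he
    simp only [E4a, List.mem_cons, List.not_mem_nil, or_false] at he
    rcases he with rfl | rfl | rfl | rfl | rfl | rfl | rfl | rfl | rfl | rfl | rfl | rfl | rfl |
      rfl | rfl | rfl
    · exact ⟨hwW 0, hzz 0⟩
    · exact ⟨hwW 0, h12.2.1⟩
    · exact ⟨hwW 0, h13.2.1⟩
    · exact ⟨hwW 0, h14.2.1⟩
    · exact ⟨hwW 1, hzz 1⟩
    · exact ⟨hwW 1, h12.2.2⟩
    · exact ⟨hwW 1, h23.2.1⟩
    · exact ⟨hwW 1, h24.2.1⟩
    · exact ⟨hwW 2, hzz 2⟩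
    · exact ⟨hwW 2, h13.2.2⟩
    · exact ⟨hwW 2, h23.2.2⟩
    · exact ⟨hwW 2, h34.2.1⟩
    · exact ⟨hwW 3, hzz 3⟩
    · exact ⟨hwW 3, h14.2.2⟩
    · exact ⟨hwW 3, h24.2.2⟩
    · exact ⟨hwW 3, h34.2.2⟩

/-- case `(2, 0, 1)` -/
private theorem four_b {W : Finset V} {N : V → Finset V} (h : Rigid W N) (hW : W.card = 4)
    (hWN : ∀ x ∈ W, x ∉ NN N W) {z : V}
    (hz : ∀ w ∈ W, z ∈ N w) (l : Fin 6 → V) (hl : Function.Injective l)
    (hlN : ∀ i, l i ∈ NN N W) (hzl : ∀ i, l i ≠ z)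
    (hd : ∀ c ∈ NN N W, c ≠ z → dg W N c = 2) (w : Fin 4 → V) (hw : Function.Injective w)
    (hwW : ∀ i, w i ∈ W) (p q r s : Fin 4) (hpq : p ≠ q) (hpr : p ≠ r) (hps : p ≠ s) (hqr : q ≠ r)
    (hqs : q ≠ s) (hrs : r ≠ s)
    (x12 : ((N (w p) ∩ N (w q)).erase z).card = 2) (x34 : ((N (w r) ∩ N (w s)).erase z).card = 2)
    (x14 : ((N (w p) ∩ N (w s)).erase z).card = 1) (x23 : ((N (w q) ∩ N (w r)).erase z).card = 1) :
    TK (LG W N (R3 l)) := by
  obtain ⟨a, b, hab, e12⟩ := Finset.card_eq_two.1 x12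
  obtain ⟨e, f, hef, e34⟩ := Finset.card_eq_two.1 x34
  obtain ⟨c, e14⟩ := Finset.card_eq_one.1 x14
  obtain ⟨d, e23⟩ := Finset.card_eq_one.1 x23
  have ha : a ∈ (N (w p) ∩ N (w q)).erase z := by rw [e12]; simp
  have hb : b ∈ (N (w p) ∩ N (w q)).erase z := by rw [e12]; simp
  have hc : c ∈ (N (w p) ∩ N (w s)).erase z := by rw [e14]; simp
  have hdd : d ∈ (N (w q) ∩ N (w r)).erase z := by rw [e23]; simp
  have he : e ∈ (N (w r) ∩ N (w s)).erase z := by rw [e34]; simp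
  have hf : f ∈ (N (w r) ∩ N (w s)).erase z := by rw [e34]; simp
  clear x12 x34 x14 x23 e12 e34 e14 e23
  rw [Finset.mem_erase, Finset.mem_inter] at ha hb hc hdd he hf
  have ne : ∀ {x y u : V}, x ∈ N u → y ∉ N u → x ≠ y := fun h1 h2 h3 => h2 (h3 ▸ h1)
  have no3 : ∀ {c : V}, c ≠ z → ∀ {i j : Fin 4} (k : Fin 4), i ≠ j → i ≠ k → j ≠ k → c ∈ N (w i) →
      c ∈ N (w j) → c ∉ N (w k) := fun hcz i j k a b c' => four_no3 hd w hw hwW hcz k a b c'
  have ac := no3 hc.1 q hps hpq hqs.symm hc.2.1 hc.2.2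
  have ad := no3 hdd.1 p hqr hpq.symm hpr.symm hdd.2.1 hdd.2.2
  have ae := no3 he.1 p hrs hpr.symm hps.symm he.2.1 he.2.2
  have af := no3 hf.1 p hrs hpr.symm hps.symm hf.2.1 hf.2.2
  have ae' := no3 he.1 q hrs hqr.symm hqs.symm he.2.1 he.2.2
  have af' := no3 hf.1 q hrs hqr.symm hqs.symm hf.2.1 hf.2.2
  have hnd : [a, b, c, d, e, f].Nodup := by
    simp only [List.nodup_cons, List.mem_cons, List.not_mem_nil, or_false, not_or,
      not_false_eq_true, List.nodup_nil, and_true]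
    exact ⟨⟨hab, ne ha.2.2 ac, ne ha.2.1 ad, ne ha.2.1 ae, ne ha.2.1 af⟩,
      ⟨ne hb.2.2 ac, ne hb.2.1 ad, ne hb.2.1 ae, ne hb.2.1 af⟩,
      ⟨ne hc.2.1 ad, ne hc.2.1 ae, ne hc.2.1 af⟩,
      ⟨ne hdd.2.1 ae', ne hdd.2.1 af'⟩, hef⟩
  have hmN : ∀ {c : V} (i : Fin 4), c ∈ N (w i) → c ∈ NN N W := fun i hc => N_subset_NN (hwW i) hc
  have hN : ∀ x ∈ [a, b, c, d, e, f], x ∈ NN N W ∧ x ≠ z := by
    intro x hx
    simp only [List.mem_cons, List.not_mem_nil, or_false] at hx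
    rcases hx with rfl | rfl | rfl | rfl | rfl | rfl
    · exact ⟨hmN _ ha.2.1, ha.1⟩
    · exact ⟨hmN _ hb.2.1, hb.1⟩
    · exact ⟨hmN _ hc.2.1, hc.1⟩
    · exact ⟨hmN _ hdd.2.1, hdd.1⟩
    · exact ⟨hmN _ he.2.1, he.1⟩
    · exact ⟨hmN _ hf.2.1, hf.1⟩
  have hzz : ∀ i, z ∈ N (w i) := fun i => hz _ (hwW i)
  have hφ := four_inj hWN (hmN 0 (hzz 0)) a b c d e f w hw hwW p q r s hpq hpr hps hqr hqs hrs
    hnd hN
  refine four_fin h hW hWN hz l hl hlN hzl _ hφ rfl ?_ E4b (Or.inr rfl) ?_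
  · intro i
    fin_cases i
    · exact hmN _ ha.2.1
    · exact hmN _ hb.2.1
    · exact hmN _ hc.2.1
    · exact hmN _ hdd.2.1
    · exact hmN _ he.2.1
    · exact hmN _ hf.2.1
  · intro x hx
    simp only [E4b, List.mem_cons, List.not_mem_nil, or_false] at hx
    rcases hx with rfl | rfl | rfl | rfl | rfl | rfl | rfl | rfl | rfl | rfl | rfl | rfl | rfl |
      rfl | rfl | rfl
    · exact ⟨hwW p, hzz p⟩
    · exact ⟨hwW p, ha.2.1⟩
    · exact ⟨hwW p, hb.2.1⟩
    · exact ⟨hwW p, hc.2.1⟩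
    · exact ⟨hwW q, hzz q⟩
    · exact ⟨hwW q, ha.2.2⟩
    · exact ⟨hwW q, hb.2.2⟩
    · exact ⟨hwW q, hdd.2.1⟩
    · exact ⟨hwW r, hzz r⟩
    · exact ⟨hwW r, he.2.1⟩
    · exact ⟨hwW r, hf.2.1⟩
    · exact ⟨hwW r, hdd.2.2⟩
    · exact ⟨hwW s, hzz s⟩
    · exact ⟨hwW s, he.2.2⟩
    · exact ⟨hwW s, hf.2.2⟩
    · exact ⟨hwW s, hc.2.2⟩

theorem T3_four {W : Finset V} {N : V → Finset V} (h : Rigid W N) (hW : W.card = 4)
    (hWN : ∀ x ∈ W, x ∉ NN N W) (h2 : ∀ c ∈ NN N W, 2 ≤ dg W N c) {z : V}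
    (hz : ∀ w ∈ W, z ∈ N w) (l : Fin 6 → V) (hl : Function.Injective l)
    (hlN : ∀ i, l i ∈ NN N W) (hzl : ∀ i, l i ≠ z) : TK (LG W N (R3 l)) := by
  have hd := four_deg h hW h2 hz
  set e := W.equivFinOfCardEq hW with he
  set w : Fin 4 → V := fun i => ((e.symm i : W) : V) with hw0
  have hw : Function.Injective w := Subtype.val_injective.comp e.symm.injective
  have hwW : ∀ i, w i ∈ W := fun i => (e.symm i).2
  have hWw : ∀ u ∈ W, ∃ i, w i = u := fun u hu => ⟨e ⟨u, hu⟩, by simp [hw0]⟩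
  clear_value w
  have c := four_cards h hz hd w hw hwW hWw
  have c0 := c 0 1 2 3 (by decide) (by decide) (by decide) (by decide) (by decide) (by decide)
    (by decide)
  have c1 := c 1 0 2 3 (by decide) (by decide) (by decide) (by decide) (by decide) (by decide)
    (by decide)
  have c2 := c 2 0 1 3 (by decide) (by decide) (by decide) (by decide) (by decide) (by decide)
    (by decide)
  have c3 := c 3 0 1 2 (by decide) (by decide) (by decide) (by decide) (by decide) (by decide)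
    (by decide)
  have hs : ∀ i j, ((N (w i) ∩ N (w j)).erase z).card = ((N (w j) ∩ N (w i)).erase z).card := by
    intro i j
    rw [Finset.inter_comm]
  rw [hs 1 0] at c1
  rw [hs 2 0, hs 2 1] at c2
  rw [hs 3 0, hs 3 1, hs 3 2] at c3
  have le : ∀ i j : Fin 4, i ≠ j → ((N (w i) ∩ N (w j)).erase z).card ≤ 2 := fun i j hij =>
    four_le h hz (hwW i) (hwW j) (hw.ne hij)
  have l01 := le 0 1 (by decide)
  have l02 := le 0 2 (by decide)
  have l03 := le 0 3 (by decide)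
  have B := four_b h hW hWN hz l hl hlN hzl hd w hw hwW
  have ex : ∀ i j : Fin 4, ((N (w i) ∩ N (w j)).erase z).card = 1 →
      ∃ u, u ∈ (N (w i) ∩ N (w j)).erase z := by
    intro i j hij
    exact Finset.card_pos.1 (by omega)
  have cases7 : (((N (w 0) ∩ N (w 1)).erase z).card = 1 ∧ ((N (w 0) ∩ N (w 2)).erase z).card = 1) ∨
      (((N (w 0) ∩ N (w 1)).erase z).card = 2 ∧ ((N (w 0) ∩ N (w 2)).erase z).card = 0) ∨
      (((N (w 0) ∩ N (w 1)).erase z).card = 2 ∧ ((N (w 0) ∩ N (w 2)).erase z).card = 1) ∨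
      (((N (w 0) ∩ N (w 1)).erase z).card = 1 ∧ ((N (w 0) ∩ N (w 2)).erase z).card = 2) ∨
      (((N (w 0) ∩ N (w 1)).erase z).card = 0 ∧ ((N (w 0) ∩ N (w 2)).erase z).card = 2) ∨
      (((N (w 0) ∩ N (w 1)).erase z).card = 1 ∧ ((N (w 0) ∩ N (w 2)).erase z).card = 0) ∨
      (((N (w 0) ∩ N (w 1)).erase z).card = 0 ∧ ((N (w 0) ∩ N (w 2)).erase z).card = 1) := by
    omega
  rcases cases7 with ⟨h1, h2⟩ | ⟨h1, h2⟩ | ⟨h1, h2⟩ | ⟨h1, h2⟩ | ⟨h1, h2⟩ | ⟨h1, h2⟩ | ⟨h1, h2⟩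
  · obtain ⟨u12, h12⟩ := ex 0 1 (by omega)
    obtain ⟨u13, h13⟩ := ex 0 2 (by omega)
    obtain ⟨u14, h14⟩ := ex 0 3 (by omega)
    obtain ⟨u23, h23⟩ := ex 1 2 (by omega)
    obtain ⟨u24, h24⟩ := ex 1 3 (by omega)
    obtain ⟨u34, h34⟩ := ex 2 3 (by omega)
    exact four_a h hW hWN hz l hl hlN hzl hd w hw hwW h12 h13 h14 h23 h24 h34
  · exact B 0 1 2 3 (by decide) (by decide) (by decide) (by decide) (by decide) (by decide)
      (by omega) (by omega) (by omega) (by omega)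
  · exact B 0 1 3 2 (by decide) (by decide) (by decide) (by decide) (by decide) (by decide)
      (by omega) (by rw [hs]; omega) (by omega) (by omega)
  · exact B 0 2 3 1 (by decide) (by decide) (by decide) (by decide) (by decide) (by decide)
      (by omega) (by rw [hs]; omega) (by omega) (by omega)
  · exact B 0 2 1 3 (by decide) (by decide) (by decide) (by decide) (by decide) (by decide)
      (by omega) (by omega) (by omega) (by rw [hs]; omega)
  · exact B 0 3 2 1 (by decide) (by decide) (by decide) (by decide) (by decide) (by decide)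
      (by omega) (by rw [hs]; omega) (by omega) (by rw [hs]; omega)
  · exact B 0 3 1 2 (by decide) (by decide) (by decide) (by decide) (by decide) (by decide)
      (by omega) (by omega) (by omega) (by rw [hs]; omega)

end Pool.Agent.TOKST
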