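import Mathlib
import Pool.Agent.TOKST.Cor
import Pool.Agent.TOKST3.Defs3

/-!
# Module DEGONE: a black of degree one, by Theorem T
-/

set_option autoImplicit false
set_option linter.unusedSectionVars false

namespace Pool.Agent.TOKST

variable {V : Type} [DecidableEq V]

theorem TK_deg_one {W : Finset V} {N : V → Finset V} (h : Rigid W N) (hW : 2 ≤ W.card)
    (hWN : ∀ x ∈ W, x ∉ NN N W) {w0 a : V} (hw0 : w0 ∈ W) (ha : a ∈ N w0)
    (ha' : ∀ w ∈ W, w ≠ w0 → a ∉ N w) {x1 y1 x2 y2 : V} (h1 : x1 ∈ NN N W) (h2 : y1 ∈ NN N W)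
    (h3 : x2 ∈ NN N W) (h4 : y2 ∈ NN N W) (hnd : [a, x1, y1, x2, y2].Nodup) :
    TK (JG W N x1 y1 x2 y2) := by
  have hcard : (W.erase w0).card + 1 = W.card := Finset.card_erase_add_one hw0
  have hne : (W.erase w0).Nonempty := Finset.card_pos.1 (by omega)
  have hnot : w0 ∉ W.erase w0 := Finset.notMem_erase w0 W
  have hsub : W.erase w0 ⊆ W := Finset.erase_subset w0 W
  have hins : insert w0 (W.erase w0) = W := Finset.insert_erase hw0
  have haN : a ∈ NN N W := N_subset_NN hw0 ha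
  have hSur : Sur (W.erase w0) N := h.sur.mono hsub
  have hEq : NN N (W.erase w0) = (NN N W).erase a := by
    refine Finset.eq_of_subset_of_card_le ?_ ?_
    · intro x hx
      refine Finset.mem_erase.2 ⟨?_, NN_mono hsub hx⟩
      rintro rfl
      obtain ⟨w, hw, hxw⟩ := mem_NN.1 hx
      exact ha' w (hsub hw) (Finset.ne_of_mem_erase hw) hxw
    · have h5 := hSur _ subset_rfl hne
      rw [Finset.card_erase_of_mem haN, h.tot]
      omega
  have hupd : ∀ Y : Finset V, Y ⊆ W.erase w0 →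
      NN (Function.update N w0 ((N w0).erase a)) Y = NN N Y :=
    fun Y hY => NN_update_of_notMem N w0 _ (fun h' => hnot (hY h'))
  have hNN2 : NN (Function.update N w0 ((N w0).erase a)) (W.erase w0) = (NN N W).erase a := by
    rw [hupd _ subset_rfl, hEq]
  have hRig : Rigid (W.erase w0) (Function.update N w0 ((N w0).erase a)) := by
    refine ⟨?_, ?_, ?_⟩
    · intro w hw
      have hwne : w ≠ w0 := fun h' => hnot (h' ▸ hw)
      rw [Function.update_of_ne hwne]
      exact h.four w (hsub hw)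
    · intro Y hY hYne
      rw [hupd Y hY]
      exact hSur Y hY hYne
    · rw [hNN2, Finset.card_erase_of_mem haN, h.tot]
      omega
  have hτN : Function.update N w0 ((N w0).erase a) w0 = (N w0).erase a :=
    Function.update_self ..
  simp only [List.nodup_cons, List.mem_cons, not_or, List.not_mem_nil, not_false_eq_true,
    List.nodup_nil, and_true] at hnd
  obtain ⟨⟨m1, m2, m3, m4⟩, hnd'⟩ := hnd
  have hT := theoremT_aux (W.erase w0).card (W.erase w0)
    (Function.update N w0 ((N w0).erase a)) w0 x1 y1 x2 y2 rfl hRig hne hnot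
    (by rw [hτN, Finset.card_erase_of_mem ha, h.four w0 hw0])
    (by
      rw [hτN, hNN2]
      exact Finset.erase_subset_erase _ (N_subset_NN hw0))
    (by
      rw [hins, hNN2]
      intro x hx hx'
      exact hWN x hx (Finset.mem_of_mem_erase hx'))
    (by rw [hNN2]; exact Finset.mem_erase.2 ⟨Ne.symm m1, h1⟩)
    (by rw [hNN2]; exact Finset.mem_erase.2 ⟨Ne.symm m2, h2⟩)
    (by rw [hNN2]; exact Finset.mem_erase.2 ⟨Ne.symm m3, h3⟩)
    (by rw [hNN2]; exact Finset.mem_erase.2 ⟨Ne.symm m4, h4⟩)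
    (by
      simp only [List.nodup_cons, List.mem_cons, not_or, List.not_mem_nil, not_false_eq_true,
        List.nodup_nil, and_true]
      exact hnd')
  rw [hins] at hT
  refine hT.mono ?_
  have key : ∀ u v, v ∈ Function.update N w0 ((N w0).erase a) u → v ∈ N u := by
    intro u v h
    by_cases hu : u = w0
    · subst hu
      rw [Function.update_self] at h
      exact Finset.mem_of_mem_erase h
    · rwa [Function.update_of_ne hu] at h
  intro u v huv
  unfold JG at huv ⊢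
  rw [SimpleGraph.fromRel_adj] at huv ⊢
  obtain ⟨hne', h⟩ := huv
  refine ⟨hne', ?_⟩
  rcases h with (⟨h1, h2⟩ | h) | (⟨h1, h2⟩ | h)
  · exact Or.inl (Or.inl ⟨h1, key _ _ h2⟩)
  · exact Or.inl (Or.inr h)
  · exact Or.inr (Or.inl ⟨h1, key _ _ h2⟩)
  · exact Or.inr (Or.inr h)

private theorem JG_le_LG {W : Finset V} {N : V → Finset V} {R : V → V → Prop} {a b c d : V}
    (h1 : R a b) (h2 : R c d) (h : TK (JG W N a b c d)) : TK (LG W N R) := by
  refine h.mono fun u v huv => ?_
  unfold JG at huv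
  rw [SimpleGraph.fromRel_adj] at huv
  rw [LG_adj]
  obtain ⟨hne, (h3 | ⟨rfl, rfl⟩ | ⟨rfl, rfl⟩) | (h3 | ⟨rfl, rfl⟩ | ⟨rfl, rfl⟩)⟩ := huv
  · exact ⟨hne, Or.inl (Or.inl h3)⟩
  · exact ⟨hne, Or.inl (Or.inr h1)⟩
  · exact ⟨hne, Or.inl (Or.inr h2)⟩
  · exact ⟨hne, Or.inr (Or.inl h3)⟩
  · exact ⟨hne, Or.inr (Or.inr h1)⟩
  · exact ⟨hne, Or.inr (Or.inr h2)⟩

theorem T3_deg_one {W : Finset V} {N : V → Finset V} (h : Rigid W N) (hW : 2 ≤ W.card)
    (hWN : ∀ x ∈ W, x ∉ NN N W) (l : Fin 6 → V) (hl : Function.Injective l)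
    (hlN : ∀ i, l i ∈ NN N W) {a : V} (ha : a ∈ NN N W) (hd : dg W N a < 2) :
    TK (LG W N (R3 l)) := by
  obtain ⟨w0, hw0, haw⟩ := mem_NN.1 ha
  have ha' : ∀ w ∈ W, w ≠ w0 → a ∉ N w := by
    intro w hw hne hN
    unfold dg at hd
    have h1 : 1 < (W.filter fun w => a ∈ N w).card := Finset.one_lt_card.2
      ⟨w, Finset.mem_filter.2 ⟨hw, hN⟩, w0, Finset.mem_filter.2 ⟨hw0, haw⟩, hne⟩
    omega
  have key : ∀ i j k m : Fin 6, [i, j, k, m].Nodup → (∀ n ∈ [i, j, k, m], a ≠ l n) →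
      R3 l (l i) (l j) → R3 l (l k) (l m) → TK (LG W N (R3 l)) := by
    intro i j k m hnd hne h1 h2
    refine JG_le_LG h1 h2 (TK_deg_one h hW hWN hw0 haw ha' (hlN i) (hlN j) (hlN k) (hlN m) ?_)
    have h3 := List.Nodup.map hl hnd
    rw [List.nodup_cons]
    refine ⟨?_, h3⟩
    intro h4
    obtain ⟨n, hn, hn'⟩ := List.mem_map.1 (show a ∈ [i, j, k, m].map l from h4)
    exact hne n hn hn'.symm
  by_cases h01 : a = l 0 ∨ a = l 1
  · refine key 2 3 4 5 (by decide) ?_ (Or.inr (Or.inl ⟨rfl, rfl⟩)) (Or.inr (Or.inr ⟨rfl, rfl⟩))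
    intro n hn h1
    rcases h01 with h2 | h2
    · rw [h2] at h1
      rw [← hl h1] at hn
      exact absurd hn (by decide)
    · rw [h2] at h1
      rw [← hl h1] at hn
      exact absurd hn (by decide)
  · push Not at h01
    by_cases h23 : a = l 2 ∨ a = l 3
    · refine key 0 1 4 5 (by decide) ?_ (Or.inl ⟨rfl, rfl⟩) (Or.inr (Or.inr ⟨rfl, rfl⟩))
      intro n hn h1
      rcases h23 with h2 | h2
      · rw [h2] at h1
        rw [← hl h1] at hn
        exact absurd hn (by decide)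
      · rw [h2] at h1
        rw [← hl h1] at hn
        exact absurd hn (by decide)
    · push Not at h23
      refine key 0 1 2 3 (by decide) ?_ (Or.inl ⟨rfl, rfl⟩) (Or.inr (Or.inl ⟨rfl, rfl⟩))
      intro n hn
      simp only [List.mem_cons, List.not_mem_nil, or_false] at hn
      rcases hn with rfl | rfl | rfl | rfl
      · exact h01.1
      · exact h01.2
      · exact h23.1
      · exact h23.2

end Pool.Agent.TOKST
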