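import Mathlib
import Pool.Agent.TOKST.Six
import Pool.Agent.TOKST3.Defs3

/-!
# Module DEGZ: admissible pairs at a black of small degree
-/

set_option autoImplicit false
set_option linter.unusedSectionVars false

namespace Pool.Agent.TOKST

variable {ι α : Type} [DecidableEq ι] [DecidableEq α]

/-- negation of admissibility -/
theorem exists_tight_of_not_adm {W : Finset ι} {N : ι → Finset α} {w : ι} {z c : α} (hw : w ∈ W)
    (hz : z ∈ N w) (hc : c ∈ N w) (hcz : c ≠ z) (h : ¬ Adm W N w {z, c}) :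
    ∃ Y, Tight W N Y ∧ z ∈ NN N Y ∧ c ∈ NN N Y ∧ w ∉ Y := by
  by_contra hcon
  push Not at hcon
  refine h ⟨hw, Finset.card_pair (Ne.symm hcz), pair_subset.2 ⟨hz, hc⟩, fun Y hY hs => ?_⟩
  obtain ⟨h1, h2⟩ := pair_subset.1 hs
  exact hcon Y hY h1 h2

theorem adm_of_deg_two {W : Finset ι} {N : ι → Finset α} (h : Rigid W N) {z : α}
    (hz : dg W N z = 2) : ∃ w c, Adm W N w {z, c} := by
  classical
  unfold dg at hz
  obtain ⟨w1, w2, hne, hf⟩ := Finset.card_eq_two.1 hz
  have hm : ∀ w, w ∈ W ∧ z ∈ N w ↔ w = w1 ∨ w = w2 := by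
    intro w
    have h1 : w ∈ W.filter (fun w => z ∈ N w) ↔ w ∈ ({w1, w2} : Finset ι) := by rw [hf]
    rw [Finset.mem_filter, Finset.mem_insert, Finset.mem_singleton] at h1
    exact h1
  have hw1 := (hm w1).2 (Or.inl rfl)
  have hw2 := (hm w2).2 (Or.inr rfl)
  by_contra hcon
  push Not at hcon
  -- a tight set of maximal cardinality containing `w2` and not `w1`
  let F := W.powerset.filter (fun Y => Tight W N Y ∧ w2 ∈ Y ∧ w1 ∉ Y)
  have hF : F.Nonempty := ⟨{w2}, Finset.mem_filter.2
    ⟨Finset.mem_powerset.2 (Finset.singleton_subset_iff.2 hw2.1), h.single hw2.1,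
      Finset.mem_singleton_self _, fun h1 => hne (Finset.mem_singleton.1 h1)⟩⟩
  obtain ⟨Y0, hY0F, hmax⟩ := Finset.exists_max_image F Finset.card hF
  obtain ⟨-, hY0, hw2Y, hw1Y⟩ := Finset.mem_filter.1 hY0F
  have hsub : ∀ Y, Tight W N Y → z ∈ NN N Y → w1 ∉ Y → Y ⊆ Y0 := by
    intro Y hY hzY hw1'
    obtain ⟨w, hwY, hzw⟩ := mem_NN.1 hzY
    have hw2' : w2 ∈ Y := by
      rcases (hm w).1 ⟨hY.sub hwY, hzw⟩ with h1 | h1
      · exact absurd (h1 ▸ hwY) hw1'
      · exact h1 ▸ hwY
    obtain ⟨hU, -, -⟩ := uncross h.sur hY hY0 ⟨w2, Finset.mem_inter.2 ⟨hw2', hw2Y⟩⟩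
    have h1 := hmax (Y ∪ Y0) (Finset.mem_filter.2 ⟨Finset.mem_powerset.2 hU.sub, hU,
      Finset.mem_union_left _ hw2', fun h2 => by
        rcases Finset.mem_union.1 h2 with h2 | h2
        · exact hw1' h2
        · exact hw1Y h2⟩)
    have h2 : Y ∪ Y0 = Y0 :=
      (Finset.eq_of_subset_of_card_le Finset.subset_union_right h1).symm
    rw [← h2]
    exact Finset.subset_union_left
  have hN : N w1 ⊆ NN N Y0 := by
    intro c hc
    by_cases hcz : c = z
    · rw [hcz]
      exact N_subset_NN hw2Y hw2.2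
    · obtain ⟨Y, hY, h1, h2, h3⟩ := exists_tight_of_not_adm hw1.1 hw1.2 hc hcz (hcon w1 c)
      exact NN_mono (hsub Y hY h1 h3) h2
  have h1 := h.sur (insert w1 Y0) (Finset.insert_subset hw1.1 hY0.sub) ⟨w1,
    Finset.mem_insert_self _ _⟩
  rw [NN_insert, Finset.union_eq_right.2 hN, Finset.card_insert_of_notMem hw1Y, hY0.card] at h1
  omega

theorem adm_of_deg_three {W : Finset ι} {N : ι → Finset α} (h : Rigid W N) (hW : W.card = 4)
    (h2 : ∀ c ∈ NN N W, 2 ≤ dg W N c) {z : α} (hz : dg W N z = 3) :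
    ∃ w c, Adm W N w {z, c} := by
  classical
  by_contra hcon
  push Not at hcon
  have hz' := hz
  unfold dg at hz'
  set Z := W.filter (fun w => z ∈ N w) with hZ
  have hZW : Z ⊆ W := Finset.filter_subset _ _
  obtain ⟨w4, hw4⟩ : ∃ w4, W \ Z = {w4} := by
    rw [← Finset.card_eq_one, Finset.card_sdiff_of_subset hZW]
    omega
  have hw4W : w4 ∈ W \ Z := by rw [hw4]; exact Finset.mem_singleton_self _
  obtain ⟨hw4W, hw4Z⟩ := Finset.mem_sdiff.1 hw4W
  have hzw4 : z ∉ N w4 := fun h1 => hw4Z (Finset.mem_filter.2 ⟨hw4W, h1⟩)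
  have hWins : ∀ w ∈ W, w ∈ Z ∨ w = w4 := by
    intro w hw
    by_cases h1 : w ∈ Z
    · exact Or.inl h1
    · right
      have : w ∈ W \ Z := Finset.mem_sdiff.2 ⟨hw, h1⟩
      rw [hw4] at this
      exact Finset.mem_singleton.1 this
  have hzN : z ∈ NN N W := by
    obtain ⟨w, hw⟩ : Z.Nonempty := by
      rw [← Finset.card_pos]
      omega
    obtain ⟨h3, h4⟩ := Finset.mem_filter.1 hw
    exact N_subset_NN h3 h4
  -- (1) no tight triples
  have htri : ∀ Y, Tight W N Y → Y.card ≠ 3 := by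
    intro Y hY hc
    obtain ⟨w, hw⟩ : ∃ w, W \ Y = {w} := by
      rw [← Finset.card_eq_one, Finset.card_sdiff_of_subset hY.sub]
      omega
    have h3 : ∃ a ∈ NN N W, a ∉ NN N Y := by
      by_contra h4
      push Not at h4
      have h5 := Finset.card_le_card (show NN N W ⊆ NN N Y from h4)
      rw [h.tot, hY.card] at h5
      omega
    obtain ⟨a, ha, haY⟩ := h3
    have h4 := h2 a ha
    have h5 : W.filter (fun w => a ∈ N w) ⊆ {w} := by
      intro v hv
      obtain ⟨hv1, hv2⟩ := Finset.mem_filter.1 hv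
      rw [← hw]
      exact Finset.mem_sdiff.2 ⟨hv1, fun h6 => haY (N_subset_NN h6 hv2)⟩
    have h6 := Finset.card_le_card h5
    rw [Finset.card_singleton] at h6
    unfold dg at h4
    omega
  -- (2) at most one of the pairs `{i, w4}` is tight
  have hpair : ∀ i ∈ Z, ∀ j ∈ Z, i ≠ j → Tight W N {i, w4} → Tight W N {j, w4} → False := by
    intro i hi j hj hij h3 h4
    have hi4 : i ≠ w4 := fun h5 => hw4Z (h5 ▸ hi)
    have hj4 : j ≠ w4 := fun h5 => hw4Z (h5 ▸ hj)
    obtain ⟨hU, -, -⟩ := uncross h.sur h3 h4 ⟨w4, by simp⟩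
    refine htri _ hU ?_
    have e : ({i, w4} ∪ {j, w4} : Finset ι) = {i, j, w4} := by
      ext x
      simp only [Finset.mem_union, Finset.mem_insert, Finset.mem_singleton]
      tauto
    rw [e, Finset.card_insert_of_notMem (by
      simp only [Finset.mem_insert, Finset.mem_singleton, not_or]
      exact ⟨hij, hi4⟩), Finset.card_pair hj4]
  -- (3)
  have hcov : ∀ i ∈ Z, (∀ j ∈ Z, j ≠ i → ¬ Tight W N {j, w4}) → ∀ c ∈ N i, c ≠ z →
      ∃ j ∈ Z, j ≠ i ∧ c ∈ N j := by
    intro i hi hno c hc hcz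
    obtain ⟨hiW, hiz⟩ := Finset.mem_filter.1 hi
    obtain ⟨Y, hY, h3, h4, h5⟩ := exists_tight_of_not_adm hiW hiz hc hcz (hcon i c)
    have hw4Y : w4 ∉ Y := by
      intro h6
      -- the other elements of `Y`
      have h7 : Y.erase w4 ⊆ Z.erase i := by
        intro y hy
        obtain ⟨hy1, hy2⟩ := Finset.mem_erase.1 hy
        refine Finset.mem_erase.2 ⟨fun h8 => h5 (h8 ▸ hy2), ?_⟩
        exact (hWins y (hY.sub hy2)).resolve_right hy1
      have h8 : (Z.erase i).card = 2 := by
        rw [Finset.card_erase_of_mem hi, hz']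
      have h9 := Finset.card_le_card h7
      have h10 : (Y.erase w4).card + 1 = Y.card := Finset.card_erase_add_one h6
      have h11 := htri Y hY
      rcases Nat.lt_or_ge 1 (Y.erase w4).card with h12 | h12
      · omega
      · rcases Nat.lt_or_ge 0 (Y.erase w4).card with h13 | h13
        · obtain ⟨j, hj⟩ := Finset.card_eq_one.1 (show (Y.erase w4).card = 1 by omega)
          have hjm : j ∈ Y.erase w4 := by rw [hj]; exact Finset.mem_singleton_self _
          have hjZ := h7 hjm
          refine hno j (Finset.mem_of_mem_erase hjZ) (Finset.ne_of_mem_erase hjZ) ?_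
          have : Y = {j, w4} := by
            rw [← Finset.insert_erase h6, hj]
            exact Finset.pair_comm _ _
          rw [← this]
          exact hY
        · have h14 : Y.erase w4 = ∅ := Finset.card_eq_zero.1 (by omega)
          have : Y = {w4} := by
            rw [← Finset.insert_erase h6, h14]
            rfl
          rw [this, NN_singleton] at h3
          exact hzw4 h3
    obtain ⟨j, hj, hcj⟩ := mem_NN.1 h4
    refine ⟨j, ?_, fun h6 => h5 (h6 ▸ hj), hcj⟩
    exact (hWins j (hY.sub hj)).resolve_right fun h6 => hw4Y (h6 ▸ hj)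
  -- degree three
  have hdeg : ∀ i j k c, i ∈ W → j ∈ W → k ∈ W → i ≠ j → i ≠ k → j ≠ k → c ∈ N i → c ∈ N j →
      c ∈ N k → 3 ≤ dg W N c := by
    intro i j k c hi hj hk hij hik hjk h3 h4 h5
    have h6 : ({i, j, k} : Finset ι) ⊆ W.filter (fun w => c ∈ N w) := by
      intro x hx
      simp only [Finset.mem_insert, Finset.mem_singleton] at hx
      rcases hx with rfl | rfl | rfl
      · exact Finset.mem_filter.2 ⟨hi, h3⟩
      · exact Finset.mem_filter.2 ⟨hj, h4⟩
      · exact Finset.mem_filter.2 ⟨hk, h5⟩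
    have h7 := Finset.card_le_card h6
    rw [Finset.card_insert_of_notMem (by
      simp only [Finset.mem_insert, Finset.mem_singleton, not_or]
      exact ⟨hij, hik⟩), Finset.card_pair hjk] at h7
    exact h7
  have hdeg' : ∀ i ∈ Z, (∀ j ∈ Z, j ≠ i → ¬ Tight W N {j, w4}) → ∀ c ∈ N i, c ∈ N w4 →
      3 ≤ dg W N c := by
    intro i hi hno c hc hc4
    have hcz : c ≠ z := fun h3 => hzw4 (h3 ▸ hc4)
    obtain ⟨j, hj, hji, hcj⟩ := hcov i hi hno c hc hcz
    exact hdeg i j w4 c (hZW hi) (hZW hj) hw4W (Ne.symm hji) (fun h5 => hw4Z (h5 ▸ hi))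
      (fun h5 => hw4Z (h5 ▸ hj)) hc hcj hc4
  by_cases ht : ∃ i ∈ Z, Tight W N {i, w4}
  · obtain ⟨i, hi, hti⟩ := ht
    have hi4 : i ≠ w4 := fun h5 => hw4Z (h5 ▸ hi)
    have hno : ∀ j ∈ Z, j ≠ i → ¬ Tight W N {j, w4} := fun j hj hji h3 =>
      hpair j hj i hi hji h3 hti
    have h3 := hti.card
    rw [NN_insert, NN_singleton, Finset.card_pair hi4] at h3
    have h4 := Finset.card_union_add_card_inter (N i) (N w4)
    rw [h.four i (hZW hi), h.four w4 hw4W, h3] at h4
    have h5 := deg_count h h2 (insert z (N i ∩ N w4)) (by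
      intro x hx
      rcases Finset.mem_insert.1 hx with rfl | hx
      · exact hzN
      · exact N_subset_NN hw4W (Finset.mem_inter.1 hx).2) (by
      intro x hx
      rcases Finset.mem_insert.1 hx with rfl | hx
      · exact hz.ge
      · obtain ⟨h6, h7⟩ := Finset.mem_inter.1 hx
        exact hdeg' i hi hno x h6 h7)
    rw [Finset.card_insert_of_notMem (fun h6 => hzw4 (Finset.mem_inter.1 h6).2)] at h5
    omega
  · push Not at ht
    have h5 := deg_count h h2 (insert z (N w4)) (by
      intro x hx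
      rcases Finset.mem_insert.1 hx with rfl | hx
      · exact hzN
      · exact N_subset_NN hw4W hx) (by
      intro x hx
      rcases Finset.mem_insert.1 hx with rfl | hx
      · exact hz.ge
      · have h6 := h2 x (N_subset_NN hw4W hx)
        unfold dg at h6
        obtain ⟨i, hi, hi4⟩ := Finset.exists_mem_ne (show 1 < (W.filter fun w => x ∈ N w).card by
          omega) w4
        obtain ⟨hiW, hxi⟩ := Finset.mem_filter.1 hi
        have hiZ := (hWins i hiW).resolve_right hi4
        exact hdeg' i hiZ (fun j hj _ => ht j hj) x hxi hx)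
    rw [Finset.card_insert_of_notMem hzw4, h.four w4 hw4W] at h5
    omega

end Pool.Agent.TOKST
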