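import Mathlib
import Pool.Agent.TOKST.JFold
import Pool.Agent.TOKST3.Defs3

/-!
# Module LFOLD: folds of `LG` (compare `JG_fold` in `Pool.Agent.TOKST.JFold`)
-/

set_option autoImplicit false
set_option linter.unusedSectionVars false

namespace Pool.Agent.TOKST

variable {V : Type} [DecidableEq V]

private theorem rr_eq_p {p q x : V} (h : rr p q x = p) : x = p ∨ x = q := by
  by_cases hx : x = q
  · exact Or.inr hx
  · rw [rr_of_ne hx] at h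
    exact Or.inl h

private theorem rr_ne_p {p q x : V} (h : rr p q x ≠ p) : rr p q x = x := by
  by_cases hx : x = q
  · rw [hx, rr_self] at h
    exact absurd rfl h
  · exact rr_of_ne hx

theorem LG_fold {Wh : Finset V} {N : V → Finset V} {R : V → V → Prop} {w p q : V} (hpq : p ≠ q)
    (hw : w ∈ Wh) (hp : p ∈ N w) (hq : q ∈ N w) (hWN : ∀ x ∈ Wh, x ∉ NN N Wh)
    (hR : ∀ u v, R u v → u ∈ NN N Wh ∧ v ∈ NN N Wh)
    (h : TK (LG (Wh.erase w) (fN p q N) (fR p q R))) : TK (LG Wh N R) := by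
  have hpN : p ∈ NN N Wh := N_subset_NN hw hp
  have hqN : q ∈ NN N Wh := N_subset_NN hw hq
  have hwN : w ∉ NN N Wh := hWN w hw
  have hrN : ∀ x, x ∈ NN N Wh → rr p q x ∈ NN N Wh := by
    intro x hx
    by_cases hxq : x = q
    · rw [hxq, rr_self]
      exact hpN
    · rw [rr_of_ne hxq]
      exact hx
  have hrw : ∀ x, x ∈ NN N Wh → rr p q x ≠ w := fun x hx h => hwN (h ▸ hrN x hx)
  have hfN : ∀ u v, u ∈ Wh.erase w → v ∈ fN p q N u → ∃ x ∈ N u, rr p q x = v := by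
    intro u v _ hv
    unfold fN at hv
    obtain ⟨x, hx, rfl⟩ := Finset.mem_image.1 hv
    exact ⟨x, hx, rfl⟩
  have hWsub : ∀ u, u ∈ Wh.erase w → u ∈ Wh := fun u hu => Finset.mem_of_mem_erase hu
  refine TK_fold (w := w) (p := p) (q := q) ?_ ?_ hpq ?_ ?_ ?_ h
  · rw [LG_adj]
    exact ⟨fun h => hwN (h ▸ hpN), Or.inl (Or.inl ⟨hw, hp⟩)⟩
  · rw [LG_adj]
    exact ⟨fun h => hwN (h ▸ hqN), Or.inl (Or.inl ⟨hw, hq⟩)⟩
  · intro u v huv
    rw [LG_adj] at huv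
    obtain ⟨-, (⟨h1, -⟩ | ⟨x, y, h1, rfl, rfl⟩) | (⟨h1, h2⟩ | ⟨x, y, h1, rfl, rfl⟩)⟩ := huv
    · exact ⟨Finset.ne_of_mem_erase h1, fun h => hWN u (hWsub u h1) (h ▸ hqN)⟩
    · exact ⟨hrw x (hR x y h1).1, rr_ne hpq x⟩
    · obtain ⟨x, hx, rfl⟩ := hfN v u h1 h2
      exact ⟨hrw x (N_subset_NN (hWsub v h1) hx), rr_ne hpq x⟩
    · exact ⟨hrw y (hR x y h1).2, rr_ne hpq y⟩
  · intro u v huv hup hvp
    rw [LG_adj] at huv ⊢
    obtain ⟨hne, (⟨h1, h2⟩ | ⟨x, y, h1, hx, hy⟩) | (⟨h1, h2⟩ | ⟨x, y, h1, hx, hy⟩)⟩ := huv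
    · obtain ⟨x, hx, rfl⟩ := hfN u v h1 h2
      refine ⟨hne, Or.inl (Or.inl ⟨hWsub u h1, ?_⟩)⟩
      rw [rr_ne_p hvp]
      exact hx
    · refine ⟨hne, Or.inl (Or.inr ?_)⟩
      have e1 : u = x := by rw [← hx] at hup ⊢; exact rr_ne_p hup
      have e2 : v = y := by rw [← hy] at hvp ⊢; exact rr_ne_p hvp
      rw [e1, e2]
      exact h1
    · obtain ⟨x, hx, rfl⟩ := hfN v u h1 h2
      refine ⟨hne, Or.inr (Or.inl ⟨hWsub v h1, ?_⟩)⟩
      rw [rr_ne_p hup]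
      exact hx
    · refine ⟨hne, Or.inr (Or.inr ?_)⟩
      have e1 : v = x := by rw [← hx] at hvp ⊢; exact rr_ne_p hvp
      have e2 : u = y := by rw [← hy] at hup ⊢; exact rr_ne_p hup
      rw [e1, e2]
      exact h1
  · intro v hpv
    rw [LG_adj] at hpv
    rw [LG_adj, LG_adj]
    obtain ⟨hne, (⟨h1, h2⟩ | ⟨x, y, h1, hx, hy⟩) | (⟨h1, h2⟩ | ⟨x, y, h1, hx, hy⟩)⟩ := hpv
    · exact absurd hpN (hWN p (hWsub p h1))
    · have hvq : q ≠ v := by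
        rw [← hy]; exact Ne.symm (rr_ne hpq y)
      have h3 : v = y := by
        rw [← hy] at hne ⊢
        exact rr_ne_p (Ne.symm hne)
      rcases rr_eq_p hx with h4 | h4
      · refine Or.inl ⟨hne, Or.inl (Or.inr ?_)⟩
        rw [h3, ← h4]; exact h1
      · refine Or.inr ⟨hvq, Or.inl (Or.inr ?_)⟩
        rw [h3, ← h4]; exact h1
    · obtain ⟨x, hx, hxp⟩ := hfN v p h1 h2
      have hvW : v ∈ Wh := hWsub v h1
      rcases rr_eq_p hxp with h4 | h4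
      · exact Or.inl ⟨hne, Or.inr (Or.inl ⟨hvW, h4 ▸ hx⟩)⟩
      · refine Or.inr ⟨fun h => hWN v hvW (h ▸ hqN), Or.inr (Or.inl ⟨hvW, h4 ▸ hx⟩)⟩
    · have hvq : q ≠ v := by
        rw [← hx]; exact Ne.symm (rr_ne hpq x)
      have h3 : v = x := by
        rw [← hx] at hne ⊢
        exact rr_ne_p (Ne.symm hne)
      rcases rr_eq_p hy with h4 | h4
      · refine Or.inl ⟨hne, Or.inr (Or.inr ?_)⟩
        rw [h3, ← h4]; exact h1
      · refine Or.inr ⟨hvq, Or.inr (Or.inr ?_)⟩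
        rw [h3, ← h4]; exact h1

end Pool.Agent.TOKST
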