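import Mathlib
import Pool.Agent.TOKST3.LFold
import Pool.Agent.TOKST3.Adm6
import Pool.Agent.TOKST3.DegOne
import Pool.Agent.TOKST3.DegZ
import Pool.Agent.TOKST3.Base3
import Pool.Agent.TOKST3.Base4

/-!
# Theorem T₃: a rigid structure with at least three whites and three disjoint links
-/

set_option autoImplicit false
set_option linter.unusedSectionVars false

namespace Pool.Agent.TOKST

variable {V : Type} [DecidableEq V]

theorem theoremT3 (n : ℕ) : ∀ (W : Finset V) (N : V → Finset V) (l : Fin 6 → V),
    W.card = n → 3 ≤ n → Rigid W N → (∀ x ∈ W, x ∉ NN N W) → Function.Injective l →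
    (∀ i, l i ∈ NN N W) → TK (LG W N (R3 l)) := by
  induction n using Nat.strong_induction_on with
  | _ n ih =>
    intro W N l hn h3 h hWN hl hlN
    have hW2 : 2 ≤ W.card := by omega
    have hne : W.Nonempty := Finset.card_pos.1 (by omega)
    -- the fold
    have key : ∀ w p q, Adm W N w {p, q} → 4 ≤ n → ¬ (p ∈ Set.range l ∧ q ∈ Set.range l) →
        TK (LG W N (R3 l)) := by
      intro w p q hadm h4 hX
      have hpq := hadm.ne
      have hwW := hadm.1
      have hWne : W ≠ {w} := by
        intro h5
        rw [h5, Finset.card_singleton] at hW2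
        omega
      obtain ⟨hT', hNN'⟩ := fold_tight_of_mem h hadm (h.all hne) hwW hWne
      have hpNN : p ∈ NN N W := N_subset_NN hwW hadm.left
      have hr := fold_rigid h hadm hW2
      have hcard : (W.erase w).card = n - 1 := by
        rw [Finset.card_erase_of_mem hwW, hn]
      refine LG_fold hpq hwW hadm.left hadm.right hWN ?_ ?_
      · rintro u v (⟨rfl, rfl⟩ | ⟨rfl, rfl⟩ | ⟨rfl, rfl⟩) <;> exact ⟨hlN _, hlN _⟩
      · rw [← R3_fold]
        refine ih (n - 1) (by omega) (W.erase w) (fN p q N) (rr p q ∘ l) hcard (by omega) hr ?_ ?_
          ?_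
        · intro x hx hxN
          rw [hNN'] at hxN
          obtain ⟨y, hy, hyx⟩ := Finset.mem_image.1 hxN
          have hxW := Finset.mem_of_mem_erase hx
          by_cases hyq : y = q
          · rw [hyq, rr_self] at hyx
            exact hWN x hxW (hyx ▸ hpNN)
          · rw [rr_of_ne hyq] at hyx
            exact hWN x hxW (hyx ▸ hy)
        · intro i j hij
          have hij' : rr p q (l i) = rr p q (l j) := hij
          by_cases hi : l i = q
          · by_cases hj : l j = q
            · exact hl (hi.trans hj.symm)
            · rw [hi, rr_self, rr_of_ne hj] at hij'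
              exact absurd ⟨⟨j, hij'.symm⟩, ⟨i, hi⟩⟩ hX
          · by_cases hj : l j = q
            · rw [hj, rr_self, rr_of_ne hi] at hij'
              exact absurd ⟨⟨i, hij'⟩, ⟨j, hj⟩⟩ hX
            · rw [rr_of_ne hi, rr_of_ne hj] at hij'
              exact hl hij'
        · intro i
          rw [hNN']
          exact Finset.mem_image_of_mem _ (hlN i)
    by_cases hd : ∀ c ∈ NN N W, 2 ≤ dg W N c
    · by_cases hn3 : n = 3
      · exact T3_three h (hn.trans hn3) hWN hd l hl hlN
      · have hX : (Finset.univ.image l).card = 6 := by
          rw [Finset.card_image_of_injective _ hl, Finset.card_univ, Fintype.card_fin]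
        have hXm : ∀ x, x ∈ Set.range l → x ∈ Finset.univ.image l := by
          rintro x ⟨i, rfl⟩
          exact Finset.mem_image_of_mem _ (Finset.mem_univ i)
        by_cases hn5 : 5 ≤ n
        · obtain ⟨w, p, q, hadm, hno⟩ := exists_adm_not_subset6 h (by omega)
            (Finset.univ.image l) (by omega)
          refine key w p q hadm (by omega) fun h5 => hno ?_
          exact pair_subset.2 ⟨hXm _ h5.1, hXm _ h5.2⟩
        · have hn4 : n = 4 := by omega
          -- the seventh black
          obtain ⟨z, hz, hzl⟩ : ∃ z ∈ NN N W, z ∉ Finset.univ.image l := by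
            by_contra hcon
            push Not at hcon
            have h5 := Finset.card_le_card (show NN N W ⊆ Finset.univ.image l from hcon)
            rw [h.tot] at h5
            omega
          have hzl' : z ∉ Set.range l := fun h5 => hzl (hXm z h5)
          have hdz : dg W N z ≤ 4 := by
            have := Finset.card_filter_le W (fun w => z ∈ N w)
            unfold dg
            omega
          have hdz2 := hd z hz
          by_cases hz2 : dg W N z = 2
          · obtain ⟨w, c, hadm⟩ := adm_of_deg_two h hz2
            exact key w z c hadm (by omega) fun h5 => hzl' h5.1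
          by_cases hz3 : dg W N z = 3
          · obtain ⟨w, c, hadm⟩ := adm_of_deg_three h (by omega) hd hz3
            exact key w z c hadm (by omega) fun h5 => hzl' h5.1
          have hz4 : dg W N z = W.card := by omega
          have hzW : ∀ w ∈ W, z ∈ N w := by
            unfold dg at hz4
            have h5 := Finset.eq_of_subset_of_card_le (Finset.filter_subset _ W) hz4.ge
            intro w hw
            rw [← h5] at hw
            exact (Finset.mem_filter.1 hw).2
          exact T3_four h (by omega) hWN hd hzW l hl hlN fun i h5 => hzl' ⟨i, h5⟩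
    · push Not at hd
      obtain ⟨a, ha, hda⟩ := hd
      exact T3_deg_one h hW2 hWN l hl hlN ha hda

end Pool.Agent.TOKST
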