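import Mathlib
import Pool.Agent.TOKST.Final
import Pool.Agent.TOKST3.Main3

/-!
# Links replaced by odd paths; Theorem `T₃` in a graph
-/

set_option autoImplicit false
set_option linter.unusedSectionVars false

namespace Pool.Agent.TOKST

variable {V : Type} [DecidableEq V]

/-- The links `a i, b i` may be replaced by disjoint odd paths outside the whites. -/
theorem toks_of_links {n : ℕ} (G : SimpleGraph V) {W A : Finset V} {N : V → Finset V}
    (hNG : ∀ w ∈ W, ∀ v ∈ N w, G.Adj w v ∧ v ∈ A) (hWA : Disjoint W A) (a b : Fin n → V)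
    (ha : ∀ i, a i ∈ A) (hb : ∀ i, b i ∈ A) (hainj : Function.Injective a)
    (hbinj : Function.Injective b) (hab : ∀ i j, a i ≠ b j) (L : Fin n → List V)
    (hc : ∀ i, List.IsChain G.Adj (a i :: (L i ++ [b i]))) (he : ∀ i, Even (L i).length)
    (hnd : ∀ i, (L i).Nodup) (hLW : ∀ i, ∀ x ∈ L i, x ∉ W) (hLA : ∀ i, ∀ x ∈ L i, x ∉ A)
    (hLd : ∀ i j, i ≠ j → ∀ x ∈ L i, x ∉ L j)
    (h : TK (LG W N (fun u v => ∃ i, u = a i ∧ v = b i))) : HasTOKS G := by
  classical
  let S : V → V → List V := fun u v =>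
    if h : ∃ i, u = a i ∧ v = b i then L h.choose
    else if h : ∃ i, u = b i ∧ v = a i then (L h.choose).reverse
    else []
  have Sab : ∀ i, S (a i) (b i) = L i := by
    intro i
    have h1 : ∃ j, a i = a j ∧ b i = b j := ⟨i, rfl, rfl⟩
    simp only [S]
    rw [dif_pos h1]
    rw [← hainj h1.choose_spec.1]
  have hno : ∀ i, ¬ ∃ j, b i = a j ∧ a i = b j := by
    rintro i ⟨j, h1, -⟩
    exact hab j i h1.symm
  have Sba : ∀ i, S (b i) (a i) = (L i).reverse := by
    intro i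
    have h1 : ∃ j, b i = b j ∧ a i = a j := ⟨i, rfl, rfl⟩
    simp only [S]
    rw [dif_neg (hno i), dif_pos h1]
    rw [← hbinj h1.choose_spec.1]
  have hcases : ∀ u v, (∃ i, u = a i ∧ v = b i) ∨ (∃ i, u = b i ∧ v = a i) ∨
      (S u v = [] ∧ S v u = [] ∧ ¬ (∃ i, u = a i ∧ v = b i) ∧ ¬ (∃ i, u = b i ∧ v = a i)) := by
    intro u v
    by_cases h1 : ∃ i, u = a i ∧ v = b i
    · exact Or.inl h1
    by_cases h2 : ∃ i, u = b i ∧ v = a i
    · exact Or.inr (Or.inl h2)
    refine Or.inr (Or.inr ⟨?_, ?_, h1, h2⟩)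
    · simp only [S]
      rw [dif_neg h1, dif_neg h2]
    · have h1' : ¬ ∃ i, v = b i ∧ u = a i := fun ⟨i, h3, h4⟩ => h1 ⟨i, h4, h3⟩
      have h2' : ¬ ∃ i, v = a i ∧ u = b i := fun ⟨i, h3, h4⟩ => h2 ⟨i, h4, h3⟩
      simp only [S]
      rw [dif_neg h2', dif_neg h1']
  have hJ : ∀ u v, (LG W N (fun u v => ∃ i, u = a i ∧ v = b i)).Adj u v →
      (u ∈ W ∧ v ∈ N u) ∨ (v ∈ W ∧ u ∈ N v) ∨ (∃ i, u = a i ∧ v = b i) ∨
        (∃ i, u = b i ∧ v = a i) := by
    intro u v h
    rw [LG_adj] at h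
    rcases h.2 with (h | h) | (h | ⟨i, h1, h2⟩)
    · exact Or.inl h
    · exact Or.inr (Or.inr (Or.inl h))
    · exact Or.inr (Or.inl h)
    · exact Or.inr (Or.inr (Or.inr ⟨i, h2, h1⟩))
  have hJWA : ∀ u v, (LG W N (fun u v => ∃ i, u = a i ∧ v = b i)).Adj u v → u ∈ W ∨ u ∈ A := by
    intro u v h
    rcases hJ u v h with h | h | ⟨i, h, -⟩ | ⟨i, h, -⟩
    · exact Or.inl h.1
    · exact Or.inr (hNG v h.1 u h.2).2
    · rw [h]; exact Or.inr (ha i)
    · rw [h]; exact Or.inr (hb i)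
  have hSmem : ∀ u v z, z ∈ S u v → ∃ i, s(u, v) = s(a i, b i) ∧ z ∈ L i := by
    intro u v z hz
    rcases hcases u v with ⟨i, rfl, rfl⟩ | ⟨i, rfl, rfl⟩ | h
    · rw [Sab] at hz
      exact ⟨i, rfl, hz⟩
    · rw [Sba, List.mem_reverse] at hz
      exact ⟨i, Sym2.eq_swap, hz⟩
    · rw [h.1] at hz
      simp at hz
  have hrev : ∀ {x y : V} {L : List V}, List.IsChain G.Adj (x :: (L ++ [y])) →
      List.IsChain G.Adj (y :: (L.reverse ++ [x])) := by
    intro x y L h
    have e : y :: (L.reverse ++ [x]) = (x :: (L ++ [y])).reverse := by simp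
    rw [e, List.isChain_reverse]
    refine h.imp ?_
    intro u v huv
    exact huv.symm
  refine hasTOKS_of_TK (TK_subst (J := LG W N (fun u v => ∃ i, u = a i ∧ v = b i)) S
    ?_ ?_ ?_ ?_ ?_ ?_ h)
  · intro u v _
    rcases hcases u v with ⟨i, rfl, rfl⟩ | ⟨i, rfl, rfl⟩ | h
    · rw [Sab, Sba]
    · rw [Sab, Sba, List.reverse_reverse]
    · rw [h.1, h.2.1, List.reverse_nil]
  · intro u v huv
    rcases hcases u v with ⟨i, rfl, rfl⟩ | ⟨i, rfl, rfl⟩ | h
    · rw [Sab]; exact hc i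
    · rw [Sba]; exact hrev (hc i)
    · rw [h.1]
      have hG : G.Adj u v := by
        rcases hJ u v huv with h' | h' | h' | h'
        · exact (hNG u h'.1 v h'.2).1
        · exact (hNG v h'.1 u h'.2).1.symm
        · exact absurd h' h.2.2.1
        · exact absurd h' h.2.2.2
      simpa using hG
  · intro u v _
    rcases hcases u v with ⟨i, rfl, rfl⟩ | ⟨i, rfl, rfl⟩ | h
    · rw [Sab]; exact he i
    · rw [Sba, List.length_reverse]; exact he i
    · rw [h.1]; simp
  · intro u v _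
    rcases hcases u v with ⟨i, rfl, rfl⟩ | ⟨i, rfl, rfl⟩ | h
    · rw [Sab]; exact hnd i
    · rw [Sba, List.nodup_reverse]; exact hnd i
    · rw [h.1]; exact List.nodup_nil
  · intro u v x y _ hxy hx
    obtain ⟨i, -, h⟩ := hSmem u v x hx
    rcases hJWA x y hxy with h1 | h1
    · exact hLW i x h h1
    · exact hLA i x h h1
  · intro u v x y _ _ hne z hz hz'
    obtain ⟨i, h1, h2⟩ := hSmem u v z hz
    obtain ⟨j, h3, h4⟩ := hSmem x y z hz'
    by_cases hij : i = j
    · subst hij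
      exact hne (h1.trans h3.symm)
    · exact hLd i j hij z h2 h4

/-- Theorem `T₃` for an independent set in a graph and three disjoint odd paths. -/
theorem final3 (G : SimpleGraph V) {W A : Finset V} (hWA : Disjoint W A)
    (hN : ∀ w ∈ W, ∀ v, G.Adj w v → v ∈ A) (hW : 3 ≤ W.card) (hA : A.card = W.card + 3)
    (hs : ∀ Y, Y ⊆ W → Y.Nonempty →
      ∀ S : Finset V, (∀ w ∈ Y, ∀ v, G.Adj w v → v ∈ S) → Y.card + 3 ≤ S.card)
    (a b : Fin 3 → V) (ha : ∀ i, a i ∈ A) (hb : ∀ i, b i ∈ A) (p : ∀ i, G.Walk (a i) (b i))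
    (hp : ∀ i, (p i).IsPath) (hpo : ∀ i, Odd (p i).length)
    (hpd : ∀ i j, i ≠ j → ∀ x ∈ (p i).support, x ∉ (p j).support)
    (hpW : ∀ i, ∀ x ∈ (p i).support, x ∉ W)
    (hpA : ∀ i, ∀ x ∈ (p i).support, x ∈ A → x = a i ∨ x = b i) : HasTOKS G := by
  classical
  have hex := fun i => exists_inner (p i) (hp i) (hpo i)
  have hne : ∀ i, a i ≠ b i := fun i => (hex i).1
  choose L hps hpe hpn hap hbp hpc using fun i => (hex i).2
  have hmp : ∀ i x, x ∈ (p i).support ↔ x = a i ∨ x ∈ L i ∨ x = b i := by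
    intro i x
    rw [hps]
    simp
  have hainj : Function.Injective a := by
    intro i j hij
    by_contra hne'
    exact hpd i j hne' (a i) ((hmp i _).2 (Or.inl rfl)) ((hmp j _).2 (Or.inl hij))
  have hbinj : Function.Injective b := by
    intro i j hij
    by_contra hne'
    exact hpd i j hne' (b i) ((hmp i _).2 (Or.inr (Or.inr rfl))) ((hmp j _).2 (Or.inr (Or.inr hij)))
  have hab : ∀ i j, a i ≠ b j := by
    intro i j hij
    by_cases h : i = j
    · subst h
      exact hne i hij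
    · exact hpd i j h (a i) ((hmp i _).2 (Or.inl rfl)) ((hmp j _).2 (Or.inr (Or.inr hij)))
  -- the neighbourhoods
  let N : V → Finset V := fun w => A.filter (G.Adj w)
  have hNm : ∀ w v, v ∈ N w ↔ v ∈ A ∧ G.Adj w v := fun w v => Finset.mem_filter
  have hSur : Sur W N := by
    intro Y hY hYne
    refine hs Y hY hYne _ ?_
    intro w hw v hwv
    exact mem_NN.2 ⟨w, hw, (hNm w v).2 ⟨hN w (hY hw) v hwv, hwv⟩⟩
  have hWne : W.Nonempty := Finset.card_pos.1 (by omega)
  obtain ⟨N1, hN1sub, -, hfour, hSur1⟩ := shrink W N hSur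
  have hNNle : NN N1 W ⊆ A := by
    intro x hx
    obtain ⟨w, hw, hxw⟩ := mem_NN.1 hx
    exact ((hNm w x).1 (hN1sub w hxw)).1
  have hNN : NN N1 W = A := by
    refine Finset.eq_of_subset_of_card_le hNNle ?_
    have := hSur1 W subset_rfl hWne
    omega
  have hRig : Rigid W N1 := ⟨hfour, hSur1, by rw [hNN, hA]⟩
  -- the ends of the links
  let l : Fin 6 → V := ![a 0, b 0, a 1, b 1, a 2, b 2]
  have hl : Function.Injective l := by
    have hnd : [a 0, b 0, a 1, b 1, a 2, b 2].Nodup := by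
      have n1 : ∀ {i j : Fin 3}, i ≠ j → a i ≠ a j := fun h h' => h (hainj h')
      have n2 : ∀ {i j : Fin 3}, i ≠ j → b i ≠ b j := fun h h' => h (hbinj h')
      have n3 : ∀ i j, b i ≠ a j := fun i j h => hab j i h.symm
      simp only [List.nodup_cons, List.mem_cons, not_or, List.not_mem_nil, not_false_eq_true,
        List.nodup_nil, and_true]
      exact ⟨⟨hab _ _, n1 (by decide), hab _ _, n1 (by decide), hab _ _⟩,
        ⟨n3 _ _, n2 (by decide), n3 _ _, n2 (by decide)⟩, ⟨hab _ _, n1 (by decide), hab _ _⟩,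
        ⟨n3 _ _, n2 (by decide)⟩, hab _ _⟩
    have h1 : Function.Injective ([a 0, b 0, a 1, b 1, a 2, b 2].get) :=
      List.nodup_iff_injective_get.1 hnd
    intro i j hij
    refine h1 ?_
    fin_cases i <;> fin_cases j <;> exact hij
  have hlN : ∀ i, l i ∈ NN N1 W := by
    rw [hNN]
    intro i
    fin_cases i
    · exact ha 0
    · exact hb 0
    · exact ha 1
    · exact hb 1
    · exact ha 2
    · exact hb 2
  have hT := theoremT3 W.card W N1 l rfl hW hRig (by
    rw [hNN]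
    exact fun x hx => Finset.disjoint_left.1 hWA hx) hl hlN
  refine toks_of_links G (W := W) (A := A) (N := N1) ?_ hWA a b ha hb hainj hbinj hab L hpc hpe hpn
    ?_ ?_ ?_ (hT.mono ?_)
  · intro w _ v hv
    have := (hNm w v).1 (hN1sub w hv)
    exact ⟨this.2, this.1⟩
  · intro i x hx
    exact hpW i x ((hmp i x).2 (Or.inr (Or.inl hx)))
  · intro i x hx hxA
    rcases hpA i x ((hmp i x).2 (Or.inr (Or.inl hx))) hxA with h | h
    · exact hap i (h ▸ hx)
    · exact hbp i (h ▸ hx)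
  · intro i j hij x hx hx'
    exact hpd i j hij x ((hmp i x).2 (Or.inr (Or.inl hx))) ((hmp j x).2 (Or.inr (Or.inl hx')))
  · have key : ∀ u v, R3 l u v → ∃ i, u = a i ∧ v = b i := by
      rintro u v (⟨h1, h2⟩ | ⟨h1, h2⟩ | ⟨h1, h2⟩)
      · exact ⟨0, h1, h2⟩
      · exact ⟨1, h1, h2⟩
      · exact ⟨2, h1, h2⟩
    intro u v huv
    rw [LG_adj] at huv ⊢
    refine ⟨huv.1, ?_⟩
    rcases huv.2 with (h | h) | (h | h)
    · exact Or.inl (Or.inl h)
    · exact Or.inl (Or.inr (key u v h))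
    · exact Or.inr (Or.inl h)
    · exact Or.inr (Or.inr (key v u h))

end Pool.Agent.TOKST
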